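import Pool.Agent.Y874.TP4.Final

/-!
Classical links bounding discs in the product of an arbitrary 3-manifold with an interval.

The movies of the start library consist of planar (classical) diagrams. Here the slice discs are
given by movies of arbitrary Gauss codes, that is, of virtual link diagrams; such a movie describes
disjoint discs in `M × I`, where `M` is a compact oriented 3-manifold of any topology with a boundary
sphere carrying the link. Triple points of the projection of the discs to `M` are the moves of type
III. If they are restricted as in the theorem (for example if there are none), then the classical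
link bounds disjoint ribbon discs in the 4-ball.
-/

set_option autoImplicit false

namespace Pool.Agent.Results.MP_752436_gt.VirtualDiscs

open Pool.Agent.Y468.SR Pool.Agent.Y874.TP2 Pool.Agent.Y874.TP2.T3 Pool.Agent.Y874.TP2.T4
open Pool.Agent.Y874.TP hiding CStep S_REID S_REN S_THREE Inv3

/-- `VMovie Z D T`: the virtual link with Gauss code `D` bounds disjoint discs, one for each
component, or, more generally, disjoint connected planar surfaces, one for each label, by a movie of
virtual link diagrams (well-formed Gauss codes, no planarity required) ending with the empty diagram,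
in which births are allowed. For each triple point of the projection (move of type III), either at
least two of the three double curves through this point have colours in `Z`, or the three double
curves have colours outside `Z`. In the surfaces, no curve of double points with colour outside `Z`
crosses itself at triple points of the second kind, and any two of these curves cross at most once at
such points; `T` is the list of the pairs of these curves crossing one another. -/
inductive VMovie (Z : ℕ → Prop) : Code → List (Sym2 (ℕ × Bool)) → Prop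
  | nil : VMovie Z [] []
  | step {D D' : Code} {T : List (Sym2 (ℕ × Bool))} (h : WellFormed D) (hs : CStep D D')
      (hm : VMovie Z D' T) : VMovie Z D T
  | three {D D' : Code} {T : List (Sym2 (ℕ × Bool))} (h : WellFormed D)
      (A B C E : List (Pass ⊕ ℕ)) (X Y W t m b : Pass × Pass) (x y z : ℕ)
      (hT : TriAt x y z t m b) (hP : List.Perm [X, Y, W] [t, m, b])
      (hD : enc D = A ++ two X.1 X.2 ++ B ++ two Y.1 Y.2 ++ C ++ two W.1 W.2 ++ E)
      (hD' : enc D' = A ++ two X.2 X.1 ++ B ++ two Y.2 Y.1 ++ C ++ two W.2 W.1 ++ E)
      (hZ : ¬Z (colour x) ∧ ¬Z (colour y) ∧ ¬Z (colour z))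
      (hd : ∀ e ∈ prs x y z, ¬e.IsDiag) (hn : (prs x y z ++ T).Nodup)
      (hm : VMovie Z D' T) : VMovie Z D (prs x y z ++ T)
  | inner {D D' : Code} {T : List (Sym2 (ℕ × Bool))} (h : WellFormed D)
      (A B C E : List (Pass ⊕ ℕ)) (X Y W t m b : Pass × Pass) (x y z : ℕ)
      (hT : TriAt x y z t m b) (hP : List.Perm [X, Y, W] [t, m, b])
      (hD : enc D = A ++ two X.1 X.2 ++ B ++ two Y.1 Y.2 ++ C ++ two W.1 W.2 ++ E)
      (hD' : enc D' = A ++ two X.2 X.1 ++ B ++ two Y.2 Y.1 ++ C ++ two W.2 W.1 ++ E)
      (hZ : Z (colour x) ∧ Z (colour y) ∨ Z (colour x) ∧ Z (colour z) ∨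
        Z (colour y) ∧ Z (colour z))
      (hm : VMovie Z D' T) : VMovie Z D T

theorem vmovie_wf {Z : ℕ → Prop} {D : Code} {T : List (Sym2 (ℕ × Bool))} (h : VMovie Z D T) :
    WellFormed D := by
  cases h with
  | nil => exact ⟨by simp, by simp⟩
  | step h _ _ => exact h
  | three h => exact h
  | inner h => exact h

theorem vmovie_inv (hreid : S_REID) (hren : S_REN) (hthree : S_THREE) {Z : ℕ → Prop} {D : Code}
    {T : List (Sym2 (ℕ × Bool))} (h : VMovie Z D T) :
    ∃ Ts, InvB (del Z D) Ts ∧ Ts.flatMap tprs = T ∧ (∀ e ∈ T, ¬e.IsDiag) ∧ T.Nodup := by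
  induction h with
  | nil =>
    refine ⟨[], ⟨?_, by simp, ?_⟩, rfl, by simp, by simp⟩
    · exact ⟨by simp [TC, del], by simp [TC, del]⟩
    · refine ⟨id, fun p hp => absurd hp (by simp [TC, del]),
        fun p hp => absurd hp (by simp [TC, del]), fun G _ o u _ b => ?_⟩
      exact PC.nil
  | @step D D' T hD hs hm ih =>
    obtain ⟨Ts, h1, h2, h5, h6⟩ := ih
    rcases cstep_del (Z := Z) hs with h | h
    · obtain ⟨Ts', k1, k2⟩ := cstep_liftB hreid hren (wf_del hD)
        (wf_del (vmovie_wf hm)) h h1
      exact ⟨Ts', k1, (sig_flatMap k2).trans h2, h5, h6⟩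
    · exact ⟨Ts, by rw [h]; exact h1, h2, h5, h6⟩
  | @three D D' T hD A B C E X Y W t m b x y z hT hP hE hE' hZ hdg hn hm ih =>
    obtain ⟨Ts, h1, h2, h5, h6⟩ := ih
    obtain ⟨c1, c2, c3⟩ := triAt_crossing hT
    have key : ∀ {u v : ℕ} {q : Pass × Pass}, ¬Z (colour u) → ¬Z (colour v) →
        (q.1.crossing = u ∧ q.2.crossing = v ∨ q.1.crossing = v ∧ q.2.crossing = u) →
        ¬Z (colour q.1.crossing) ∧ ¬Z (colour q.2.crossing) := by
      intro u v q hu hv hq
      rcases hq with ⟨e1, e2⟩ | ⟨e1, e2⟩ <;> rw [e1, e2] <;> exact ⟨by assumption, by assumption⟩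
    obtain ⟨⟨x1, x2⟩, ⟨y1, y2⟩, w1, w2⟩ := mem_three hP (P := fun q : Pass × Pass =>
      ¬Z (colour q.1.crossing) ∧ ¬Z (colour q.2.crossing)) (key hZ.1 hZ.2.1 c1)
      (key hZ.1 hZ.2.2 c2) (key hZ.2.1 hZ.2.2 c3)
    obtain ⟨T', k1, k2⟩ := three_lift (D := del Z D) (D' := del Z D') (A := de Z A) (B := de Z B)
      (C := de Z C) (E := de Z E) hthree hT hP
      (by rw [enc_del, hE]; simp only [de_append, de_two_keep x1 x2, de_two_keep y1 y2,
        de_two_keep w1 w2])
      (by rw [enc_del, hE']; simp only [de_append, de_two_keep x2 x1, de_two_keep y2 y1,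
        de_two_keep w2 w1]) h1
    have hprs : tprs T' = prs x y z := by
      simp only [sig, Prod.mk.injEq] at k2
      obtain ⟨⟨e1, e2, e3⟩, e4, e5, e6⟩ := k2
      simp only [tprs, prs, kap, lc, Tri.pa₁, Tri.pb₁, Tri.pc₁, Pass.mate, e1, e2, e3, e4, e5, e6,
        Bool.not_true]
    refine ⟨T' :: Ts, k1, by rw [List.flatMap_cons, hprs, h2], fun e he => ?_, hn⟩
    rcases List.mem_append.1 he with he | he
    · exact hdg e he
    · exact h5 e he
  | @inner D D' T hD A B C E X Y W t m b x y z hT hP hE hE' hZ hm ih =>
    obtain ⟨c1, c2, c3⟩ := triAt_crossing hT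
    have key : ∀ {u v : ℕ} {q : Pass × Pass}, (Z (colour u) ∨ Z (colour v)) →
        (q.1.crossing = u ∧ q.2.crossing = v ∨ q.1.crossing = v ∧ q.2.crossing = u) →
        Z (colour q.1.crossing) ∨ Z (colour q.2.crossing) := by
      intro u v q hu hq
      rcases hq with ⟨e1, e2⟩ | ⟨e1, e2⟩ <;> rw [e1, e2]
      · exact hu
      · exact hu.symm
    obtain ⟨x1, y1, w1⟩ := mem_three hP (P := fun q : Pass × Pass =>
      Z (colour q.1.crossing) ∨ Z (colour q.2.crossing)) (key (by tauto) c1)
      (key (by tauto) c2) (key (by tauto) c3)
    have e : del Z D = del Z D' := by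
      refine enc_inj ?_
      rw [enc_del, enc_del, hE, hE']
      simp only [de_append, de_two_swap x1, de_two_swap y1, de_two_swap w1]
    rw [e]
    exact ih

/-- Let `L` be (the Gauss code of) a classical link, and let `D` be a classical link obtained from `L`
by a movie without births. Suppose that `D` bounds disjoint discs by a movie of virtual link diagrams
with births. Let `A` be a set of double curves of the projection of these discs (those with colours
outside `Z`) which contains all double curves meeting `D`. Suppose that through each triple point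
there pass none, one or three double curves (branches) of `A`, and that, counting only the triple
points with three of them, no curve of the preimage of `A` in the discs crosses itself, and any two of
these curves cross at most once. Then `L` bounds disjoint ribbon discs in the 4-ball: discs given by a
movie of classical links without births. -/
theorem result (L : List (List Pass)) (Z : ℕ → Prop) (D : Code) (T : List (Sym2 (ℕ × Bool)))
    (hL : Classical L.zipIdx) (h₁ : Movie true false L.zipIdx D) (h₂ : VMovie Z D T)
    (hZ : ∀ p ∈ passes D, ¬Z (colour p.crossing)) : Movie true false L.zipIdx [] := by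
  have hn : (D.map Prod.snd).Nodup := by
    refine nodup_movie h₁ ?_
    rw [List.zipIdx_map_snd]
    exact List.nodup_range'
  obtain ⟨Ts, k1, k2, k5, k6⟩ := vmovie_inv RD.reid RN.ren TH.three h₂
  rw [del_eq hZ] at k1
  have k8 : Inv3 D Ts := ⟨k1.wf, k1.ok, by rw [k2]; exact k5, by rw [k2]; exact k6, k1.inv⟩
  exact h₁.trans (movie_of_inv3 RD.reid CT.cut OT.out_inv Pool.Agent.Y333.TP.mid_planar
    Pool.Agent.Y514.TP.out_planar Pool.Agent.Y210.TP.move junc _ _ D Ts rfl rfl
    (classical_of_movie h₁ hL) hn k8)

end Pool.Agent.Results.MP_752436_gt.VirtualDiscs
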