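import Pool.Agent.Results.MP_752436_gt.EvenCrossings
import Pool.Agent.Results.MP_752436_gt.VirtualDiscs
import Pool.Agent.Y468.SR.Planar
import Pool.Agent.Y468.SR.Saddle

/-!
# Slice discs with one triple point

Links bounding disjoint discs whose projection has at most one triple point (of any kind, also with
branches on the same double curve) are ribbon links.
-/

set_option autoImplicit false
set_option linter.unusedSimpArgs false

namespace Pool.Agent.Results.MP_752436_gt.OneTriplePoint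

open Pool.Agent.Y468.SR
open Pool.Agent.Y874.TP (colour TriAt)
open Pool.Agent.Y874.TP2 (CStep CReid prs lc kap sg om part om_key om_append sum_zero sum_single)
open EvenCrossings

/-- `ZMovie Z D T`: the virtual link with Gauss code `D` bounds disjoint discs, one for each
component, or, more generally, disjoint connected planar surfaces, one for each label, by a movie of
virtual link diagrams (well-formed Gauss codes, no planarity required) ending with the empty diagram,
in which births are allowed. Crossings are named by pairs of natural numbers coded by one number,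
whose first member, the colour, names a double curve of the projection. For each triple point of the
projection (move of type III), either at least two of the three branches of double curves through
this point have colours in `Z`, or all three have colours outside `Z`; `T` is the list of the pairs of
curves in the preimage of the double curves crossing one another at the triple points of the second
kind (three pairs for each of them). -/
inductive ZMovie (Z : ℕ → Prop) : Code → List (Sym2 (ℕ × Bool)) → Prop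
  | nil : ZMovie Z [] []
  | step {D D' : Code} {T : List (Sym2 (ℕ × Bool))} (h : WellFormed D) (hs : CStep D D')
      (hm : ZMovie Z D' T) : ZMovie Z D T
  | three {D D' : Code} {T : List (Sym2 (ℕ × Bool))} (h : WellFormed D)
      (A B C E : List (Pass ⊕ ℕ)) (X Y W t m b : Pass × Pass) (x y z : ℕ)
      (hT : TriAt x y z t m b) (hP : List.Perm [X, Y, W] [t, m, b])
      (hD : enc D = A ++ two X.1 X.2 ++ B ++ two Y.1 Y.2 ++ C ++ two W.1 W.2 ++ E)
      (hD' : enc D' = A ++ two X.2 X.1 ++ B ++ two Y.2 Y.1 ++ C ++ two W.2 W.1 ++ E)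
      (hZ : ¬Z (colour x) ∧ ¬Z (colour y) ∧ ¬Z (colour z))
      (hm : ZMovie Z D' T) : ZMovie Z D (prs x y z ++ T)
  | inner {D D' : Code} {T : List (Sym2 (ℕ × Bool))} (h : WellFormed D)
      (A B C E : List (Pass ⊕ ℕ)) (X Y W t m b : Pass × Pass) (x y z : ℕ)
      (hT : TriAt x y z t m b) (hP : List.Perm [X, Y, W] [t, m, b])
      (hD : enc D = A ++ two X.1 X.2 ++ B ++ two Y.1 Y.2 ++ C ++ two W.1 W.2 ++ E)
      (hD' : enc D' = A ++ two X.2 X.1 ++ B ++ two Y.2 Y.1 ++ C ++ two W.2 W.1 ++ E)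
      (hZ : Z (colour x) ∧ Z (colour y) ∨ Z (colour x) ∧ Z (colour z) ∨
        Z (colour y) ∧ Z (colour z))
      (hm : ZMovie Z D' T) : ZMovie Z D T

/-- the case in which the theorem on movies without monogons and bigons applies -/
theorem vmovie_of {Z : ℕ → Prop} {D : Code} {T : List (Sym2 (ℕ × Bool))} (h : ZMovie Z D T) :
    (∀ e ∈ T, ¬e.IsDiag) → T.Nodup → VirtualDiscs.VMovie Z D T := by
  induction h with
  | nil => exact fun _ _ => VirtualDiscs.VMovie.nil
  | step h hs hm ih => exact fun h1 h2 => VirtualDiscs.VMovie.step h hs (ih h1 h2)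
  | three h A B C E X Y W t m b x y z hT hP hD hD' hZ hm ih =>
    intro h1 h2
    refine VirtualDiscs.VMovie.three h A B C E X Y W t m b x y z hT hP hD hD' hZ
      (fun e he => h1 e (by simp [he])) h2 (ih (fun e he => h1 e (by simp [he])) ?_)
    exact (List.nodup_append.1 h2).2.1
  | inner h A B C E X Y W t m b x y z hT hP hD hD' hZ hm ih =>
    exact fun h1 h2 => VirtualDiscs.VMovie.inner h A B C E X Y W t m b x y z hT hP hD hD' hZ
      (ih h1 h2)

theorem count_inner {Z : ℕ → Prop} {κ κ' : ℕ × Bool} (h1 : ¬Z κ.1) (h2 : ¬Z κ'.1) {x y z : ℕ}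
    (hZ : Z (colour x) ∧ Z (colour y) ∨ Z (colour x) ∧ Z (colour z) ∨
      Z (colour y) ∧ Z (colour z)) : (prs x y z).count s(κ, κ') = 0 := by
  rw [List.count_eq_zero]
  intro h
  have key : ∀ u v : ℕ × Bool, (Z u.1 ∨ Z v.1) → s(κ, κ') ≠ s(u, v) := by
    intro u v huv he
    rw [Sym2.eq_iff] at he
    rcases he with ⟨rfl, rfl⟩ | ⟨rfl, rfl⟩ <;> tauto
  simp only [prs, List.mem_cons, List.not_mem_nil, or_false] at h
  rcases h with h | h | h
  · exact key _ _ (by simp only [lc]; tauto) h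
  · exact key _ _ (by simp only [lc]; tauto) h
  · exact key _ _ (by simp only [lc]; tauto) h

theorem jl_zmovie {κ κ' : ℕ × Bool} {Z : ℕ → Prop} (hκ : κ ≠ κ') (h1 : ¬Z κ.1) (h2 : ¬Z κ'.1)
    {D : Code} {T : List (Sym2 (ℕ × Bool))} (h : ZMovie Z D T) :
    JL (T.count s(κ, κ')) (vv κ κ' D) := by
  induction h with
  | nil => exact ⟨[], by simp, by simp, fun b => PC.nil⟩
  | step h hs hm ih => exact jl_step hs ih
  | three h A B C E X Y W t m b x y z hT hP hD hD' hZ hm ih =>
    rw [List.count_append]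
    exact jl_three hκ hT hP hD hD' ih
  | inner h A B C E X Y W t m b x y z hT hP hD hD' hZ hm ih =>
    have := jl_three hκ hT hP hD hD' ih
    rwa [count_inner h1 h2 hZ, zero_add] at this

/-! ### diagrams with a pairing by colours -/

/-- `n` tells the number of crossings of the curves modulo two -/
structure Std (D : Code) (n : Sym2 (ℕ × Bool) → ℕ) : Prop where
  cl : Classical D
  nd : (D.map Prod.snd).Nodup
  few : Few D
  hs : ∀ C ∈ D, ∀ p ∈ passes D, (C.1.map (ff (kap p))).sum = 0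
  hJ : ∀ p ∈ passes D, ∀ q ∈ passes D, kap p ≠ kap q →
    (4 : ℤ) ∣ (D.map fun C => om (ff (kap p)) (ff (kap q)) C.1).sum + 2 * n s(kap p, kap q)

section
variable {D : Code} {n : Sym2 (ℕ × Bool) → ℕ}

theorem Std.mem (_h : Std D n) {C : List Pass × ℕ} (hC : C ∈ D) {p : Pass} (hp : p ∈ C.1) :
    p ∈ passes D := mem_passes.2 ⟨C, hC, hp⟩

theorem Std.ndC (h : Std D n) {C : List Pass × ℕ} (hC : C ∈ D) : C.1.Nodup := by
  have := WF.nodup h.cl.1
  rw [passes, List.flatMap_def] at this
  exact (List.nodup_flatten.1 this).1 C.1 (List.mem_map_of_mem hC)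

/-- a passage determines the component -/
theorem Std.uniq (h : Std D n) {C C' : List Pass × ℕ} (hC : C ∈ D) (hC' : C' ∈ D) {r : Pass}
    (hr : r ∈ C.1) (hr' : r ∈ C'.1) : C' = C := by
  have hN := WF.nodup h.cl.1
  rw [passes, List.flatMap_def, List.nodup_flatten] at hN
  by_contra hne'
  have hpw := hN.2
  rw [List.pairwise_map] at hpw
  rcases List.append_of_mem hC' with ⟨E₁, E₂, hE⟩
  have hmem : C ∈ E₁ ∨ C ∈ E₂ := by
    rw [hE] at hC
    simp only [List.mem_append, List.mem_cons] at hC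
    rcases hC with h | h | h
    · exact Or.inl h
    · exact absurd h.symm hne'
    · exact Or.inr h
  rw [hE] at hpw
  rw [List.pairwise_append, List.pairwise_cons] at hpw
  rcases hmem with h | h
  · exact hpw.2.2 C h C' (by simp) hr hr'
  · exact hpw.2.1.1 C h hr' hr

/-- the other end of the chord of a passage -/
theorem Std.other (h : Std D n) {C : List Pass × ℕ} (hC : C ∈ D) {p : Pass} (hp : p ∈ C.1) :
    part (mm D) p ∈ C.1 ∧ part (mm D) p ≠ p ∧ kap (part (mm D) p) = kap p ∧
      sg (part (mm D) p) = -sg p ∧ part (mm D) (part (mm D) p) = p ∧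
      PairedCrossings.lett (mm D) (part (mm D) p) = (PairedCrossings.lett (mm D) p)⁻¹ ∧
      (part (mm D) p).crossing = mm D p.crossing ∧
      mm D (part (mm D) p).crossing = p.crossing ∧
      ((part (mm D) p).crossing ≠ p.crossing → (part (mm D) p).isPos = !p.isPos) ∧
      ∀ r ∈ passes D, kap r = kap p → r = p ∨ r = part (mm D) p := by
  have hs : ∀ C ∈ D, ∀ p ∈ C.1, (C.1.map (ff (kap p))).sum = 0 := fun C hC p hp =>
    h.hs C hC p (h.mem hC hp)
  obtain ⟨q, h1, h2, h3, h4, h5⟩ := exists_end h.cl.1 h.few hs hC hp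
  obtain ⟨k1, k2, k3, k4, k5⟩ := end_part h.cl.1 h.few (h.mem hC hp) (h.mem hC h1) h2 h3 h4
  obtain ⟨-, -, -, k6, -⟩ := end_part h.cl.1 h.few (h.mem hC h1) (h.mem hC hp) h2.symm h3.symm
    (by rw [h4]; ring)
  rw [k4]
  exact ⟨h1, h2, h3, h4, k6, k5, k1, k2, k3, h5⟩

theorem Std.one_comp (h : Std D n) {C : List Pass × ℕ} (hC : C ∈ D) {p : Pass} (hp : p ∈ C.1)
    (g : Pass → ℤ) : (D.map fun C => om (ff (kap p)) g C.1).sum = om (ff (kap p)) g C.1 := by
  obtain ⟨D₁, D₂, hD⟩ := List.append_of_mem hC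
  obtain ⟨o1, o2, o3, o4, o5, o6, o7, o8, o9, o10⟩ := h.other hC hp
  have hother : ∀ C' ∈ D, C' ≠ C → om (ff (kap p)) g C'.1 = 0 := by
    intro C' hC' hne
    refine Pool.Agent.Y874.TP2.om_zero fun r hr => if_neg fun hk => hne ?_
    rcases o10 r (h.mem hC' hr) hk with rfl | rfl
    · exact h.uniq hC hC' hp hr
    · exact h.uniq hC hC' o1 hr
  have hCn : C ∉ D₁ ∧ C ∉ D₂ := by
    have : D.Nodup := h.nd.of_map _
    rw [hD, List.nodup_append, List.nodup_cons] at this
    exact ⟨fun h => this.2.2 C h C (by simp) rfl, this.2.1.1⟩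
  conv_lhs => rw [hD]
  rw [List.map_append, List.sum_append, List.map_cons, List.sum_cons]
  have z1 : (D₁.map fun C => om (ff (kap p)) g C.1).sum = 0 := by
    refine List.sum_eq_zero fun y hy => ?_
    obtain ⟨C', hC', rfl⟩ := List.mem_map.1 hy
    exact hother C' (by rw [hD]; simp [hC']) (fun h => hCn.1 (by rw [← h]; exact hC'))
  have z2 : (D₂.map fun C => om (ff (kap p)) g C.1).sum = 0 := by
    refine List.sum_eq_zero fun y hy => ?_
    obtain ⟨C', hC', rfl⟩ := List.mem_map.1 hy
    exact hother C' (by rw [hD]; simp [hC']) (fun h => hCn.2 (by rw [← h]; exact hC'))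
  rw [z1, z2]
  ring

/-- the ends of the other curves between the two ends of a chord -/
theorem Std.between (h : Std D n) {C : List Pass × ℕ} (hC : C ∈ D) {p p' : Pass}
    {A M B : List Pass} (hw : C.1 = A ++ p :: (M ++ p' :: B)) (hp : kap p' = kap p) {q : Pass}
    (hq : q ∈ passes D) (hpq : kap p ≠ kap q) :
    (2 : ℤ) ∣ (M.map (ff (kap q))).sum + n s(kap p, kap q) := by
  have mp : p ∈ C.1 := by rw [hw]; simp
  have mp' : p' ∈ C.1 := by rw [hw]; simp
  have hnd := h.ndC hC
  obtain ⟨o1, o2, o3, o4, o5, o6, o7, o8, o9, o10⟩ := h.other hC mp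
  rw [hw] at hnd
  have n1 := notin hnd
  have n2 := notin (l₁ := A ++ p :: M) (x := p') (l₂ := B) (by simpa using hnd)
  simp only [List.mem_append, List.mem_cons, not_or] at n1 n2
  have e' : p' = part (mm D) p := by
    rcases o10 p' (h.mem hC mp') hp with h | h
    · exact absurd h n2.1.2.1
    · exact h
  have f0 : ∀ r ∈ C.1, r ≠ p → r ≠ p' → ff (kap p) r = 0 := by
    intro r hr h1 h2
    refine if_neg fun hk => ?_
    rcases o10 r (h.mem hC hr) hk with h | h
    · exact h1 h
    · exact h2 (by rw [e', h])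
  have key := h.hJ p (h.mem hC mp) q hq hpq
  rw [h.one_comp hC mp, hw, om_key] at key
  · have g3 : ff (kap q) p = 0 := if_neg hpq
    have g4 : ff (kap q) p' = 0 := if_neg (by rw [hp]; exact hpq)
    have g5 : ff (kap p) p = sg p := if_pos rfl
    rw [g3, g4, g5] at key
    obtain ⟨c, hc⟩ := key
    rcases sg_or p with hs | hs
    · rw [hs] at hc
      exact ⟨c, by linarith⟩
    · rw [hs] at hc
      exact ⟨-c + n s(kap p, kap q), by linarith⟩
  · intro r hr
    exact f0 r (by rw [hw]; simp [hr]) (fun h => n1.1 (by rw [← h]; exact hr))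
      (fun h => n2.1.1 (by rw [← h]; exact hr))
  · intro r hr
    exact f0 r (by rw [hw]; simp [hr]) (fun h => n1.2.1 (by rw [← h]; exact hr))
      (fun h => n2.1.2.2 (by rw [← h]; exact hr))
  · intro r hr
    exact f0 r (by rw [hw]; simp [hr]) (fun h => n1.2.2.2 (by rw [← h]; exact hr))
      (fun h => n2.2 (by rw [← h]; exact hr))
  · have g5 : ff (kap p) p = sg p := if_pos rfl
    have g6 : ff (kap p) p' = sg p' := if_pos hp
    rw [g5, g6, e', o4]

/-- sum over a part of the word, for a curve with one end in this part -/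
theorem Std.sum_part (h : Std D n) {C : List Pass × ℕ} (hC : C ∈ D) {A M B : List Pass}
    (hw : C.1 = A ++ (M ++ B)) {C' : List Pass × ℕ} (hC' : C' ∈ D) {q : Pass} (hq : q ∈ C'.1) :
    (M.map (ff (kap q))).sum =
      (if q ∈ M then sg q else 0) + (if part (mm D) q ∈ M then -sg q else 0) := by
  obtain ⟨o1, o2, o3, o4, o5, o6, o7, o8, o9, o10⟩ := h.other hC' hq
  have hnd : M.Nodup := by
    have := h.ndC hC
    rw [hw] at this
    exact (List.nodup_append.1 (List.nodup_append.1 this).2.1).1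
  have hin : ∀ r ∈ M, r ∈ passes D := fun r hr => h.mem hC (by rw [hw]; simp [hr])
  have f1 : ff (kap q) q = sg q := if_pos rfl
  have f2 : ff (kap q) (part (mm D) q) = -sg q := by
    unfold ff
    rw [if_pos o3, o4]
  by_cases h1 : q ∈ M
  · by_cases h2 : part (mm D) q ∈ M
    · rw [if_pos h1, if_pos h2, sum_two hnd h1 h2 (Ne.symm o2), f1, f2]
      intro r hr h3 h4
      refine if_neg fun hk => ?_
      rcases o10 r (hin r hr) hk with h | h
      · exact h3 h
      · exact h4 h
    · rw [if_pos h1, if_neg h2, add_zero]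
      obtain ⟨L₁, L₂, rfl⟩ := List.append_of_mem h1
      have n1 := notin hnd
      rw [sum_single _ _ _ _ (fun r hr => ?_) (fun r hr => ?_), f1]
      · refine if_neg fun hk => ?_
        rcases o10 r (hin r (by simp [hr])) hk with h | h
        · exact n1.1 (by rw [← h]; exact hr)
        · exact h2 (by rw [← h]; simp [hr])
      · refine if_neg fun hk => ?_
        rcases o10 r (hin r (by simp [hr])) hk with h | h
        · exact n1.2 (by rw [← h]; exact hr)
        · exact h2 (by rw [← h]; simp [hr])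
  · by_cases h2 : part (mm D) q ∈ M
    · rw [if_neg h1, if_pos h2, zero_add]
      obtain ⟨L₁, L₂, rfl⟩ := List.append_of_mem h2
      have n1 := notin hnd
      rw [sum_single _ _ _ _ (fun r hr => ?_) (fun r hr => ?_), f2]
      · refine if_neg fun hk => ?_
        rcases o10 r (hin r (by simp [hr])) hk with h | h
        · exact h1 (by rw [← h]; simp [hr])
        · exact n1.1 (by rw [← h]; exact hr)
      · refine if_neg fun hk => ?_
        rcases o10 r (hin r (by simp [hr])) hk with h | h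
        · exact h1 (by rw [← h]; simp [hr])
        · exact n1.2 (by rw [← h]; exact hr)
    · rw [if_neg h1, if_neg h2, add_zero]
      refine List.sum_eq_zero fun y hy => ?_
      obtain ⟨r, hr, rfl⟩ := List.mem_map.1 hy
      refine if_neg fun hk => ?_
      rcases o10 r (hin r hr) hk with h | h
      · exact h1 (by rw [← h]; exact hr)
      · exact h2 (by rw [← h]; exact hr)

theorem Std.btw_iff (h : Std D n) {C : List Pass × ℕ} (hC : C ∈ D) {p p' : Pass}
    {A M B : List Pass} (hw : C.1 = A ++ p :: (M ++ p' :: B)) (hp : kap p' = kap p) {q : Pass}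
    (hq : q ∈ passes D) (hpq : kap p ≠ kap q) :
    (Even (n s(kap p, kap q)) → (q ∈ M ↔ part (mm D) q ∈ M)) ∧
      (Odd (n s(kap p, kap q)) → (q ∈ M ↔ part (mm D) q ∉ M)) := by
  have h1 := h.between hC hw hp hq hpq
  obtain ⟨C', hC', hq'⟩ := mem_passes.1 hq
  rw [h.sum_part hC (A := A ++ [p]) (M := M) (B := p' :: B) (by rw [hw]; simp) hC' hq'] at h1
  obtain ⟨c, hc⟩ := h1
  constructor
  · rintro ⟨k, hk⟩
    rw [hk] at hc
    push_cast at hc
    by_cases m1 : q ∈ M <;> by_cases m2 : part (mm D) q ∈ M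
    · simp [m1, m2]
    · rw [if_pos m1, if_neg m2] at hc
      rcases sg_or q with hs | hs <;> rw [hs] at hc <;> omega
    · rw [if_neg m1, if_pos m2] at hc
      rcases sg_or q with hs | hs <;> rw [hs] at hc <;> omega
    · simp [m1, m2]
  · rintro ⟨k, hk⟩
    rw [hk] at hc
    push_cast at hc
    by_cases m1 : q ∈ M <;> by_cases m2 : part (mm D) q ∈ M
    · rw [if_pos m1, if_pos m2] at hc
      omega
    · simp [m1, m2]
    · simp [m1, m2]
    · rw [if_neg m1, if_neg m2] at hc
      omega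

/-- no chords of curves crossing an even number of times are interleaved -/
theorem Std.no_inter (h : Std D n) {C : List Pass × ℕ} (hC : C ∈ D) {p q : Pass}
    {a b c d e : List Pass}
    (hw : C.1 = a ++ p :: (b ++ q :: (c ++ part (mm D) p :: (d ++ part (mm D) q :: e)))) :
    kap p ≠ kap q ∧ Odd (n s(kap p, kap q)) := by
  have mp : p ∈ C.1 := by rw [hw]; simp
  have mq : q ∈ C.1 := by rw [hw]; simp
  have hnd := h.ndC hC
  rw [hw] at hnd
  have n1 := notin hnd
  have n2 := notin (l₁ := a ++ p :: b) (x := q)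
    (l₂ := c ++ part (mm D) p :: (d ++ part (mm D) q :: e)) (by simpa using hnd)
  have n4 := notin (l₁ := a ++ p :: (b ++ q :: (c ++ part (mm D) p :: d)))
    (x := part (mm D) q) (l₂ := e) (by simpa using hnd)
  simp only [List.mem_append, List.mem_cons, not_or] at n1 n2 n4
  obtain ⟨o1, o2, o3, o4, o5, o6, o7, o8, o9, o10⟩ := h.other hC mp
  have hpq : kap p ≠ kap q := by
    intro hk
    rcases o10 q (h.mem hC mq) hk.symm with h | h
    · exact n1.2.2.1 h.symm
    · exact n2.2.2.1 h
  refine ⟨hpq, ?_⟩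
  by_contra ho
  rw [Nat.not_odd_iff_even] at ho
  have hw' : C.1 = a ++ p :: ((b ++ q :: c) ++ part (mm D) p :: (d ++ part (mm D) q :: e)) := by
    rw [hw]; simp
  have := ((h.btw_iff hC hw' o3 (h.mem hC mq) hpq).1 ho).1 (by simp)
  simp only [List.mem_append, List.mem_cons] at this
  rcases this with h | h | h
  · exact n4.1.2.2.1 h
  · exact n4.1.2.2.2.1 h
  · exact n4.1.2.2.2.2.1 h

/-- the letters with respect to the pairing in which the crossings of colour `k` are single -/
noncomputable def m' (D : Code) (k : ℕ) (c : ℕ) : ℕ := if colour c = k then c else mm D c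

theorem lett_ne {k : ℕ} {p : Pass} (hp : colour p.crossing ≠ k) :
    PairedCrossings.lett (m' D k) p = PairedCrossings.lett (mm D) p := by
  unfold PairedCrossings.lett m'
  rw [if_neg hp]

theorem lett_eq {k : ℕ} {p : Pass} (hp : colour p.crossing = k) :
    PairedCrossings.lett (m' D k) p * PairedCrossings.lett (m' D k) p.mate = 1 := by
  have e1 : m' D k p.crossing = p.crossing := if_pos hp
  unfold PairedCrossings.lett
  simp only [mate_crossing, mate_isOver, e1, if_true]
  by_cases ho : p.isOver = true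
  · simp [ho]
  · simp [ho]

/-- closed parts without crossings of colour `k`, all of whose curves cross evenly -/
theorem Std.prod_seg (h : Std D n) (k : ℕ) {C : List Pass × ℕ} (hC : C ∈ D) {A M B : List Pass}
    (hw : C.1 = A ++ (M ++ B)) (hk : ∀ r ∈ M, colour r.crossing ≠ k)
    (hcl : ∀ r ∈ M, part (mm D) r ∈ M)
    (hev : ∀ p ∈ M, ∀ q ∈ M, kap p ≠ kap q → Even (n s(kap p, kap q))) :
    (M.map (PairedCrossings.lett (m' D k))).prod = 1 := by
  have hin : ∀ r ∈ M, r ∈ C.1 := fun r hr => by rw [hw]; simp [hr]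
  have hnd : M.Nodup := by
    have := h.ndC hC
    rw [hw] at this
    exact (List.nodup_append.1 (List.nodup_append.1 this).2.1).1
  refine prod_one (part (mm D)) _ M.length M le_rfl hnd (fun p hp => ?_) ?_
  · obtain ⟨o1, o2, o3, o4, o5, o6, o7, o8, o9, o10⟩ := h.other hC (hin p hp)
    refine ⟨hcl p hp, o2, o5, ?_⟩
    rw [lett_ne (hk p hp), lett_ne (hk _ (hcl p hp)), o6]
  · intro p q a b c d e he
    have mp : p ∈ M := by rw [he]; simp
    have mq : q ∈ M := by rw [he]; simp
    have hw' : C.1 = (A ++ a) ++ p :: (b ++ q :: (c ++ part (mm D) p ::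
        (d ++ part (mm D) q :: (e ++ B)))) := by
      rw [hw, he]; simp
    obtain ⟨h1, h2⟩ := h.no_inter hC hw'
    exact (Nat.not_odd_iff_even.2 (hev p mp q mq h1)) h2

/-- the criterion for the changed pairing -/
theorem Std.cancels' (h : Std D n) (k : ℕ)
    (hprod : ∀ C ∈ D, (C.1.map (PairedCrossings.lett (m' D k))).prod = 1) :
    PairedCrossings.Cancels D (m' D k) := by
  refine ⟨fun p hp => ?_, hprod⟩
  obtain ⟨C, hC, hpC⟩ := mem_passes.1 hp
  obtain ⟨o1, o2, o3, o4, o5, o6, o7, o8, o9, o10⟩ := h.other hC hpC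
  by_cases hk : colour p.crossing = k
  · have e1 : m' D k p.crossing = p.crossing := if_pos hk
    exact ⟨p, hp, e1.symm, e1, fun h => absurd rfl h⟩
  · have e1 : m' D k p.crossing = mm D p.crossing := if_neg hk
    have hk' : colour (part (mm D) p).crossing ≠ k := by
      rw [(kap_eq o3).1]; exact hk
    have e2 : m' D k (part (mm D) p).crossing = mm D (part (mm D) p).crossing := if_neg hk'
    exact ⟨part (mm D) p, h.mem hC o1, by rw [e1, o7], by rw [e2, o8], o9⟩

theorem Std.ribbon (h : Std D n) (k : ℕ)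
    (hprod : ∀ C ∈ D, (C.1.map (PairedCrossings.lett (m' D k))).prod = 1) :
    Movie false false D [] := by
  have h4 : Movie false false D [] ↔ ∃ m, PairedCrossings.Cancels D m :=
    (PairedCrossings.result D h.cl h.nd).out 2 3
  exact h4.2 ⟨_, h.cancels' k hprod⟩

/-- all curves meeting the diagram cross evenly -/
theorem Std.ribbon_even (h : Std D n)
    (hev : ∀ p ∈ passes D, ∀ q ∈ passes D, kap p ≠ kap q → Even (n s(kap p, kap q))) :
    Movie false false D [] := by
  have h4 : Movie false false D [] ↔ ∃ m, PairedCrossings.Cancels D m :=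
    (PairedCrossings.result D h.cl h.nd).out 2 3
  refine h4.2 ⟨mm D, cancels h.cl.1 h.few h.nd (fun C hC p hp => h.hs C hC p (h.mem hC hp)) ?_⟩
  intro p hp q hq hpq
  obtain ⟨c, hc⟩ := h.hJ p hp q hq hpq
  obtain ⟨j, hj⟩ := hev p hp q hq hpq
  exact ⟨c - j, by rw [hj] at hc; push_cast at hc; linarith⟩

/-! ### rotating a component -/

theorem om_rotate {f g : Pass → ℤ} {x y : List Pass} (hf : ((x ++ y).map f).sum = 0)
    (hg : ((x ++ y).map g).sum = 0) : om f g (y ++ x) = om f g (x ++ y) := by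
  rw [List.map_append, List.sum_append] at hf hg
  rw [om_append, om_append]
  have e1 : (y.map f).sum = -(x.map f).sum := by linarith
  have e2 : (y.map g).sum = -(x.map g).sum := by linarith
  rw [e1, e2]
  ring

theorem Std.perm (h : Std D n) {D' : Code} (hp : D.Perm D') : Std D' n where
  cl := classical_perm hp h.cl
  nd := (hp.map Prod.snd).nodup h.nd
  few := by
    have hm : ∀ r, r ∈ passes D' → r ∈ passes D := fun r hr => (passes_perm hp).mem_iff.2 hr
    exact ⟨fun p h1 q h2 r h3 => h.few.1 p (hm p h1) q (hm q h2) r (hm r h3),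
      fun p h1 q h2 => h.few.2 p (hm p h1) q (hm q h2)⟩
  hs := fun C hC p hp' => h.hs C (hp.mem_iff.2 hC) p ((passes_perm hp).mem_iff.2 hp')
  hJ := by
    intro p h1 q h2 h3
    have := h.hJ p ((passes_perm hp).mem_iff.2 h1) q ((passes_perm hp).mem_iff.2 h2) h3
    rwa [(hp.map _).sum_eq] at this

theorem Std.rotate {x y : List Pass} {b : ℕ} {R : Code} (h : Std ((x ++ y, b) :: R) n) :
    Std ((y ++ x, b) :: R) n := by
  have hm : ∀ r, r ∈ passes ((y ++ x, b) :: R) → r ∈ passes ((x ++ y, b) :: R) := by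
    intro r hr
    simp only [passes_cons, List.mem_append] at hr ⊢
    tauto
  refine ⟨classical_rotate h.cl, by simpa using h.nd, ⟨fun p h1 q h2 r h3 =>
    h.few.1 p (hm p h1) q (hm q h2) r (hm r h3), fun p h1 q h2 => h.few.2 p (hm p h1) q (hm q h2)⟩,
    fun C hC p hp => ?_, fun p hp q hq hpq => ?_⟩
  · rcases List.mem_cons.1 hC with rfl | hC
    · have := h.hs (x ++ y, b) (by simp) p (hm p hp)
      simp only [List.map_append, List.sum_append] at this ⊢
      linarith
    · exact h.hs C (by simp [hC]) p (hm p hp)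
  · have := h.hJ p (hm p hp) q (hm q hq) hpq
    rw [List.map_cons, List.sum_cons] at this ⊢
    have e := om_rotate (h.hs (x ++ y, b) (by simp) p (hm p hp))
      (h.hs (x ++ y, b) (by simp) q (hm q hq))
    simp only at e this ⊢
    rw [e]
    exact this

theorem Std.start (h : Std D n) {p : Pass} (hp : p ∈ passes D) :
    ∃ w b R, Std ((p :: w, b) :: R) n ∧ Movie false false D ((p :: w, b) :: R) ∧
      ∀ r, r ∈ passes ((p :: w, b) :: R) ↔ r ∈ passes D := by
  obtain ⟨⟨w, b⟩, hC, hpC⟩ := mem_passes.1 hp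
  obtain ⟨D₁, D₂, rfl⟩ := List.append_of_mem hC
  obtain ⟨x, y, rfl⟩ := List.append_of_mem hpC
  have hperm : (D₁ ++ (x ++ p :: y, b) :: D₂).Perm ((x ++ p :: y, b) :: (D₁ ++ D₂)) :=
    List.perm_middle
  have h1 := h.perm hperm
  have h2 : Std ((p :: (y ++ x), b) :: (D₁ ++ D₂)) n := h1.rotate
  refine ⟨y ++ x, b, D₁ ++ D₂, h2, ?_, fun r => ?_⟩
  · exact Movie.head h.cl h1.cl (Step.perm _ _ hperm) (Movie.head h1.cl h2.cl
      (Step.rotate x (p :: y) b (D₁ ++ D₂)) Relation.ReflTransGen.refl)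
  · rw [(passes_perm hperm).mem_iff]
    simp only [passes_cons, List.mem_append, List.mem_cons]
    tauto

/-! ### Alexander numbering -/

theorem run_sum {Bk Fr : Pass → ℤ} {s s' : ℤ} {w : List Pass}
    (h : ∀ p ∈ w, Fr p = Bk p - sg p) (hr : Run Bk Fr s w s') : s' = s - (w.map sg).sum := by
  induction w generalizing s with
  | nil => simp only [Run] at hr; simp [hr]
  | cons p w ih =>
    simp only [Run] at hr
    have := ih (fun q hq => h q (by simp [hq])) hr.2
    rw [this, h p (by simp), ← hr.1, List.map_cons, List.sum_cons]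
    ring

theorem alexander (hW : WellFormed D) (hD : Planar D) : ∃ Bk Fr : Pass → ℤ,
    (∀ p ∈ passes D, Fr p = Bk p - sg p ∧ Bk p.mate = Fr p) ∧
    ∀ C ∈ D, ∀ A M B : List Pass, ∀ p q : Pass, C.1 = A ++ p :: (M ++ q :: B) →
      Bk q = Fr p - (M.map sg).sum := by
  obtain ⟨u, hu1, hu2⟩ := hD (fun _ => 1) (fun _ => 1)
    (fun C _ => ⟨1, by
      induction C.1 with
      | nil => rfl
      | cons p w ih => exact ⟨rfl, ih⟩⟩) (fun _ _ => rfl)
  have key : ∀ p ∈ passes D, u (p.corner true true) = u (p.corner false true) - sg p ∧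
      u (p.mate.corner false true) = u (p.corner true true) := by
    intro p hp
    have k1 := hu2 p hp
    have k2 := hu2 p.mate (hW.1 p hp)
    obtain ⟨c, o, s⟩ := p
    cases o <;> cases s <;>
      simp only [Pass.corner, Pass.mate, sg, Bool.not_true, Bool.not_false, Bool.xor_true,
        Bool.xor_false, Bool.true_xor, Bool.false_xor, if_true, if_false, Bool.false_eq_true,
        reduceCtorEq] at k1 k2 ⊢ <;> constructor <;>
      first | trivial | linarith [k1.1, k1.2, k2.1, k2.2]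
  refine ⟨fun p => u (p.corner false true), fun p => u (p.corner true true), key, ?_⟩
  intro C hC A M B p q hw
  obtain ⟨s, hs⟩ := hu1 C hC
  rw [hw] at hs
  obtain ⟨m₁, h1, h2⟩ := run_append.1 hs
  simp only [Run] at h2
  obtain ⟨m₂, h3, h4⟩ := run_append.1 h2.2
  simp only [Run] at h4
  have hproj : ∀ (w : List Pass) (s s' : ℤ × ℤ),
      Run (fun p : Pass => (u (p.corner false true), u (p.corner false false)))
        (fun p => (u (p.corner true true), u (p.corner true false))) s w s' →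
      Run (fun p : Pass => u (p.corner false true)) (fun p => u (p.corner true true)) s.1 w s'.1 := by
    intro w
    induction w with
    | nil => intro s s' h; simp only [Run] at h ⊢; rw [h]
    | cons r w ih =>
      intro s s' h
      simp only [Run] at h ⊢
      exact ⟨by rw [h.1], ih _ _ h.2⟩
  have h5 := run_sum (fun r hr => (key r (mem_passes.2 ⟨C, hC, by rw [hw]; simp [hr]⟩)).1)
    (hproj M _ _ h3)
  simp only at h5
  rw [← h5, h4.1]

theorem Std.sum_sg (h : Std D n) {C : List Pass × ℕ} (hC : C ∈ D) {A M B : List Pass}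
    (hw : C.1 = A ++ (M ++ B)) (hcl : ∀ r ∈ M, part (mm D) r ∈ M) : (M.map sg).sum = 0 := by
  have hin : ∀ r ∈ M, r ∈ C.1 := fun r hr => by rw [hw]; simp [hr]
  have hnd : M.Nodup := by
    have := h.ndC hC
    rw [hw] at this
    exact (List.nodup_append.1 (List.nodup_append.1 this).2.1).1
  rw [← List.sum_toFinset sg hnd]
  refine Finset.sum_involution (fun r _ => part (mm D) r) (fun r hr => ?_) (fun r hr _ => ?_)
    (fun r hr => ?_) (fun r hr => ?_)
  · have := h.other hC (hin r (by simpa using hr))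
    rw [this.2.2.2.1]; ring
  · exact (h.other hC (hin r (by simpa using hr))).2.1
  · simpa using hcl r (by simpa using hr)
  · exact (h.other hC (hin r (by simpa using hr))).2.2.2.2.1

/-- the sum of the signs between the ends of a chord of a curve whose mate crosses all other curves
evenly -/
theorem Std.index_zero (h : Std D n) {x : Pass} {u v : List Pass} {b : ℕ}
    (hC : (x :: (u ++ part (mm D) x :: v), b) ∈ D)
    (hev : colour x.crossing % 2 ≠ 0 → ∀ r ∈ passes D, kap x.mate ≠ kap r →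
      Even (n s(kap x.mate, kap r))) : (u.map sg).sum = 0 := by
  obtain ⟨Bk, Fr, a1, a2⟩ := alexander h.cl.1 h.cl.2
  set x₂ := part (mm D) x with hx₂
  have hxC : x ∈ (x :: (u ++ x₂ :: v), b).1 := by simp
  have hx := h.mem hC hxC
  obtain ⟨o1, o2, o3, o4, o5, o6, o7, o8, o9, o10⟩ := h.other hC hxC
  rw [← hx₂] at o1 o2 o3 o4 o5 o6 o7 o8 o9 o10
  have h2 := h.mem hC o1
  have e1 := a2 _ hC [] u v x x₂ rfl
  have b1 := a1 x hx
  have b2 := a1 x₂ h2
  have b1' := a1 x.mate (h.cl.1.1 x hx)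
  have b2' := a1 x₂.mate (h.cl.1.1 x₂ h2)
  rw [mate_mate] at b1' b2'
  have key : Bk x₂ = Fr x := by
    by_cases h0 : colour x.crossing % 2 = 0
    · have hc := h.few.2 x hx x₂ h2 (kap_eq o3).1 h0
      rcases h.cl.1.eq_mate hx h2 hc with h' | h'
      · exact absurd h' o2
      · rw [h', b1.2]
    · have ho := (kap_eq o3).2 h0
      have hev := hev h0
      have hk : kap x₂.mate = kap x.mate := by
        simp only [kap, lc, mate_crossing, mate_isOver, (kap_eq o3).1, ho]
      have hne : x₂.mate ≠ x.mate := fun h' => o2 (by rw [← mate_mate x₂, h', mate_mate])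
      obtain ⟨C', hC', hxC'⟩ := mem_passes.1 (h.cl.1.1 x hx)
      obtain ⟨p1, p2, p3, p4, p5, p6, p7, p8, p9, p10⟩ := h.other hC' hxC'
      have e2 : x₂.mate = part (mm D) x.mate := by
        rcases p10 _ (h.cl.1.1 x₂ h2) hk with h' | h'
        · exact absurd h' hne
        · exact h'
      rw [← e2] at p1 p2 p3 p4 p5 p6 p7 p8 p9 p10
      have closed : ∀ {A M B : List Pass} {y z : Pass}, C'.1 = A ++ y :: (M ++ z :: B) →
          kap y = kap x.mate → kap z = kap x.mate → (∀ r, kap r = kap x.mate → r ∈ passes D →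
            r = y ∨ r = z) → (M.map sg).sum = 0 := by
        intro A M B y z hw hy hz hyz
        refine h.sum_sg hC' (A := A ++ [y]) (M := M) (B := z :: B) (by rw [hw]; simp) ?_
        intro r hr
        have hrD : r ∈ passes D := h.mem hC' (by rw [hw]; simp [hr])
        have hnd := h.ndC hC'
        rw [hw] at hnd
        have n1 := notin hnd
        have n2 := notin (l₁ := A ++ y :: M) (x := z) (l₂ := B) (by simpa using hnd)
        simp only [List.mem_append, List.mem_cons, not_or] at n1 n2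
        have hkr : kap y ≠ kap r := by
          intro h'
          rcases hyz r (by rw [← h', hy]) hrD with rfl | rfl
          · exact n1.2.1 hr
          · exact n2.1.2.2 hr
        have hE : Even (n s(kap y, kap r)) := by
          rw [hy]
          exact hev r hrD (by rw [← hy]; exact hkr)
        exact ((h.btw_iff hC' hw (by rw [hz, hy]) hrD hkr).1 hE).1 hr
      obtain ⟨L₁, L₂, hL⟩ := List.append_of_mem hxC'
      rw [hL] at p1
      have hp1 : x₂.mate ∈ L₁ ∨ x₂.mate ∈ L₂ := by
        simp only [List.mem_append, List.mem_cons] at p1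
        rcases p1 with h' | h' | h'
        · exact Or.inl h'
        · exact absurd h' hne
        · exact Or.inr h'
      rcases hp1 with h' | h'
      · obtain ⟨A, M, rfl⟩ := List.append_of_mem h'
        have hw : C'.1 = A ++ x₂.mate :: (M ++ x.mate :: L₂) := by rw [hL]; simp
        have z := closed hw hk rfl (fun r h1 h2 => (p10 r h2 h1).symm)
        have e3 := a2 _ hC' A M L₂ _ _ hw
        rw [z] at e3
        -- Bk x.mate = Fr x₂.mate
        rw [b2'.2, ← b1.2, e3]
        ring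
      · obtain ⟨M, B, rfl⟩ := List.append_of_mem h'
        have z := closed hL rfl hk (fun r h1 h2 => p10 r h2 h1)
        have e3 := a2 _ hC' L₁ M B _ _ hL
        rw [z] at e3
        -- Bk x₂.mate = Fr x.mate
        have e4 : Fr x₂ = Bk x := by
          rw [← b2.2, e3, b1'.2]
          ring
        have e5 := b2.1
        have e6 := b1.1
        rw [o4] at e5
        linarith
  rw [key] at e1
  linarith

end

/-! ### the first pattern: one curve crossing both preimages of a double curve -/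

theorem seg6 {b c d e f g : List Pass} {r t : Pass}
    (hr : b.count r + c.count r + d.count r + e.count r + f.count r + g.count r = 1)
    (ht : b.count t + c.count t + d.count t + e.count t + f.count t + g.count t = 1)
    (hX : (0 < b.count r + c.count r + d.count r) ↔ (0 < b.count t + c.count t + d.count t))
    (hP : (0 < c.count r + d.count r + e.count r + f.count r) ↔
      (0 < c.count t + d.count t + e.count t + f.count t))
    (hQ : (0 < d.count r + e.count r) ↔ (0 < d.count t + e.count t)) :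
    (r ∈ b → t ∈ b) ∧ (r ∈ c → t ∈ c) ∧ (r ∈ d → t ∈ d) ∧ (r ∈ e → t ∈ e) ∧ (r ∈ f → t ∈ f) ∧
      (r ∈ g → t ∈ g) := by
  simp only [← List.count_pos_iff]
  omega

/-- the word of the component, with the ends of the three curves -/
def W6 (x P₁ Q₁ x₂ Q₂ P₂ : Pass) (b c d e f g : List Pass) : List Pass :=
  x :: (b ++ P₁ :: (c ++ Q₁ :: (d ++ x₂ :: (e ++ Q₂ :: (f ++ P₂ :: g)))))

section
variable {D : Code} {n : Sym2 (ℕ × Bool) → ℕ} {k : ℕ} {x P₁ Q₁ x₂ Q₂ P₂ : Pass}
  {b c d e f g : List Pass} {β : ℕ}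

/-- the situation of the first pattern -/
structure PatA (D : Code) (n : Sym2 (ℕ × Bool) → ℕ) (k : ℕ) (x P₁ Q₁ x₂ Q₂ P₂ : Pass)
    (b c d e f g : List Pass) (β : ℕ) : Prop where
  std : Std D n
  hC : (W6 x P₁ Q₁ x₂ Q₂ P₂ b c d e f g, β) ∈ D
  hk : k % 2 ≠ 0
  hx : colour x.crossing ≠ k
  hP : colour P₁.crossing = k
  hQ : colour Q₁.crossing = k
  hPQ : kap P₁ ≠ kap Q₁
  ex : part (mm D) x = x₂
  eP : part (mm D) P₁ = P₂
  eQ : part (mm D) Q₁ = Q₂
  odd : ∀ p ∈ passes D, ∀ q ∈ passes D, kap p ≠ kap q → Odd (n s(kap p, kap q)) →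
    (kap p = kap x ∧ colour q.crossing = k) ∨ (kap q = kap x ∧ colour p.crossing = k)

variable (H : PatA D n k x P₁ Q₁ x₂ Q₂ P₂ b c d e f g β)
include H

omit H in
theorem count6 (r : Pass) : (W6 x P₁ Q₁ x₂ Q₂ P₂ b c d e f g).count r =
    (b.count r + c.count r + d.count r + e.count r + f.count r + g.count r) +
    ((if x = r then 1 else 0) + (if P₁ = r then 1 else 0) + (if Q₁ = r then 1 else 0) +
    (if x₂ = r then 1 else 0) + (if Q₂ = r then 1 else 0) + (if P₂ = r then 1 else 0)) := by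
  simp only [W6, List.count_cons, List.count_append, beq_iff_eq]
  ring

omit H in
theorem mems6 : x ∈ W6 x P₁ Q₁ x₂ Q₂ P₂ b c d e f g ∧
    P₁ ∈ W6 x P₁ Q₁ x₂ Q₂ P₂ b c d e f g ∧ Q₁ ∈ W6 x P₁ Q₁ x₂ Q₂ P₂ b c d e f g := by
  simp [W6]

/-- a passage different from the six special ones -/
def Sp (x P₁ Q₁ x₂ Q₂ P₂ r : Pass) : Prop :=
  x ≠ r ∧ P₁ ≠ r ∧ Q₁ ≠ r ∧ x₂ ≠ r ∧ Q₂ ≠ r ∧ P₂ ≠ r

omit H in
theorem kap_of_colour {p q r : Pass} (hk : k % 2 ≠ 0) (hp : colour p.crossing = k)
    (hq : colour q.crossing = k) (hpq : kap p ≠ kap q) (hr : colour r.crossing = k) :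
    kap r = kap p ∨ kap r = kap q := by
  have hk' : (k % 2 == 0) = false := by simpa using hk
  simp only [kap, lc, hp, hq, hr, hk', Bool.or_false, Prod.mk.injEq, true_and, ne_eq] at hpq ⊢
  cases h1 : p.isOver <;> cases h2 : q.isOver <;> cases h3 : r.isOver <;> simp_all

theorem PatA.special {r : Pass} (hr : r ∈ passes D)
    (h : kap r = kap x ∨ kap r = kap P₁ ∨ kap r = kap Q₁) : ¬Sp x P₁ Q₁ x₂ Q₂ P₂ r := by
  rintro ⟨h1, h2, h3, h4, h5, h6⟩
  obtain ⟨m1, m2, m3⟩ := mems6 (x := x) (P₁ := P₁) (Q₁ := Q₁) (x₂ := x₂) (Q₂ := Q₂) (P₂ := P₂) (b := b) (c := c)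
    (d := d) (e := e) (f := f) (g := g)
  obtain ⟨-, -, -, -, -, -, -, -, -, o⟩ := H.std.other H.hC (p := x) m1
  obtain ⟨-, -, -, -, -, -, -, -, -, o'⟩ := H.std.other H.hC (p := P₁) m2
  obtain ⟨-, -, -, -, -, -, -, -, -, o''⟩ := H.std.other H.hC (p := Q₁) m3
  rw [H.ex] at o
  rw [H.eP] at o'
  rw [H.eQ] at o''
  rcases h with h | h | h
  · rcases o r hr h with h | h
    · exact h1 h.symm
    · exact h4 h.symm
  · rcases o' r hr h with h | h
    · exact h2 h.symm
    · exact h6 h.symm
  · rcases o'' r hr h with h | h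
    · exact h3 h.symm
    · exact h5 h.symm

theorem PatA.ne {r : Pass} (hr : r ∈ passes D) (h : Sp x P₁ Q₁ x₂ Q₂ P₂ r) :
    kap r ≠ kap x ∧ kap r ≠ kap P₁ ∧ kap r ≠ kap Q₁ ∧ colour r.crossing ≠ k := by
  refine ⟨fun h' => H.special hr (Or.inl h') h, fun h' => H.special hr (Or.inr (Or.inl h')) h,
    fun h' => H.special hr (Or.inr (Or.inr h')) h, fun h' => ?_⟩
  rcases kap_of_colour H.hk H.hP H.hQ H.hPQ h' with h' | h'
  · exact H.special hr (Or.inr (Or.inl h')) h
  · exact H.special hr (Or.inr (Or.inr h')) h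

theorem PatA.cnt {r : Pass} (hr : r ∈ W6 x P₁ Q₁ x₂ Q₂ P₂ b c d e f g)
    (h : Sp x P₁ Q₁ x₂ Q₂ P₂ r) :
    b.count r + c.count r + d.count r + e.count r + f.count r + g.count r = 1 := by
  have h1 := List.count_eq_one_of_mem (H.std.ndC H.hC) hr
  simp only [count6 r] at h1
  obtain ⟨k1, k2, k3, k4, k5, k6⟩ := h
  simpa [k1, k2, k3, k4, k5, k6] using h1

theorem PatA.sp_of_seg {r : Pass}
    (h : 0 < b.count r + c.count r + d.count r + e.count r + f.count r + g.count r) :
    r ∈ W6 x P₁ Q₁ x₂ Q₂ P₂ b c d e f g ∧ Sp x P₁ Q₁ x₂ Q₂ P₂ r := by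
  have h0 := count6 (x := x) (P₁ := P₁) (Q₁ := Q₁) (x₂ := x₂) (Q₂ := Q₂) (P₂ := P₂) (b := b)
    (c := c) (d := d) (e := e) (f := f) (g := g) r
  have hr : r ∈ W6 x P₁ Q₁ x₂ Q₂ P₂ b c d e f g := by
    rw [← List.count_pos_iff]
    omega
  have h1 := List.count_eq_one_of_mem (H.std.ndC H.hC) hr
  simp only at h1
  rw [h0] at h1
  refine ⟨hr, ?_⟩
  refine ⟨?_, ?_, ?_, ?_, ?_, ?_⟩ <;> intro h' <;> simp only [h', if_true] at h1 <;> omega

theorem PatA.closed {r : Pass}
    (h : 0 < b.count r + c.count r + d.count r + e.count r + f.count r + g.count r) :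
    (r ∈ b → part (mm D) r ∈ b) ∧ (r ∈ c → part (mm D) r ∈ c) ∧ (r ∈ d → part (mm D) r ∈ d) ∧
      (r ∈ e → part (mm D) r ∈ e) ∧ (r ∈ f → part (mm D) r ∈ f) ∧
      (r ∈ g → part (mm D) r ∈ g) := by
  obtain ⟨hr, hs⟩ := H.sp_of_seg h
  have hrD := H.std.mem H.hC hr
  obtain ⟨o1, o2, o3, o4, o5, o6, o7, o8, o9, o10⟩ := H.std.other H.hC hr
  obtain ⟨q1, q2, q3, q4⟩ := H.ne hrD hs
  obtain ⟨m1, m2, m3⟩ := mems6 (x := x) (P₁ := P₁) (Q₁ := Q₁) (x₂ := x₂) (Q₂ := Q₂) (P₂ := P₂) (b := b) (c := c)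
    (d := d) (e := e) (f := f) (g := g)
  have htD := H.std.mem H.hC o1
  have hs' : Sp x P₁ Q₁ x₂ Q₂ P₂ (part (mm D) r) := by
    by_contra hns
    have hsp : kap (part (mm D) r) = kap x ∨ kap (part (mm D) r) = kap P₁ ∨
        kap (part (mm D) r) = kap Q₁ := by
      obtain ⟨-, -, k3, -⟩ := H.std.other H.hC (p := x) m1
      obtain ⟨-, -, k3', -⟩ := H.std.other H.hC (p := P₁) m2
      obtain ⟨-, -, k3'', -⟩ := H.std.other H.hC (p := Q₁) m3
      rw [H.ex] at k3
      rw [H.eP] at k3'
      rw [H.eQ] at k3''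
      unfold Sp at hns
      by_cases e1 : x = part (mm D) r
      · exact Or.inl (by rw [← e1])
      by_cases e2 : P₁ = part (mm D) r
      · exact Or.inr (Or.inl (by rw [← e2]))
      by_cases e3 : Q₁ = part (mm D) r
      · exact Or.inr (Or.inr (by rw [← e3]))
      by_cases e4 : x₂ = part (mm D) r
      · exact Or.inl (by rw [← e4, k3])
      by_cases e5 : Q₂ = part (mm D) r
      · exact Or.inr (Or.inr (by rw [← e5, k3'']))
      by_cases e6 : P₂ = part (mm D) r
      · exact Or.inr (Or.inl (by rw [← e6, k3']))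
      exact absurd ⟨e1, e2, e3, e4, e5, e6⟩ hns
    rw [o3] at hsp
    rcases hsp with h | h | h
    · exact q1 h
    · exact q2 h
    · exact q3 h
  have evX : Even (n s(kap x, kap r)) := by
    rw [← Nat.not_odd_iff_even]
    intro ho
    rcases H.odd x (H.std.mem H.hC m1) r hrD (Ne.symm q1) ho with ⟨-, h⟩ | ⟨h, -⟩
    · exact q4 h
    · exact q1 h
  have evP : Even (n s(kap P₁, kap r)) := by
    rw [← Nat.not_odd_iff_even]
    intro ho
    rcases H.odd P₁ (H.std.mem H.hC m2) r hrD (Ne.symm q2) ho with ⟨-, h⟩ | ⟨h, -⟩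
    · exact q4 h
    · exact q1 h
  have evQ : Even (n s(kap Q₁, kap r)) := by
    rw [← Nat.not_odd_iff_even]
    intro ho
    rcases H.odd Q₁ (H.std.mem H.hC m3) r hrD (Ne.symm q3) ho with ⟨-, h⟩ | ⟨h, -⟩
    · exact q4 h
    · exact q1 h
  obtain ⟨-, -, kx, -⟩ := H.std.other H.hC (p := x) m1
  obtain ⟨-, -, kP, -⟩ := H.std.other H.hC (p := P₁) m2
  obtain ⟨-, -, kQ, -⟩ := H.std.other H.hC (p := Q₁) m3
  rw [H.ex] at kx
  rw [H.eP] at kP
  rw [H.eQ] at kQ
  have bX := (H.std.btw_iff H.hC (A := []) (p := x) (p' := x₂) (M := b ++ P₁ :: (c ++ Q₁ :: d))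
    (B := e ++ Q₂ :: (f ++ P₂ :: g)) (by simp [W6]) kx hrD (Ne.symm q1)).1 evX
  have bP := (H.std.btw_iff H.hC (A := x :: b) (p := P₁) (p' := P₂)
    (M := c ++ Q₁ :: (d ++ x₂ :: (e ++ Q₂ :: f)))
    (B := g) (by simp [W6]) kP hrD (Ne.symm q2)).1 evP
  have bQ := (H.std.btw_iff H.hC (A := x :: (b ++ P₁ :: c)) (p := Q₁) (p' := Q₂)
    (M := d ++ x₂ :: e)
    (B := f ++ P₂ :: g) (by simp [W6]) kQ hrD (Ne.symm q3)).1 evQ
  rw [← List.count_pos_iff, ← List.count_pos_iff] at bX bP bQ
  obtain ⟨k1, k2, k3, k4, k5, k6⟩ := hs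
  obtain ⟨l1, l2, l3, l4, l5, l6⟩ := hs'
  simp only [List.count_append, List.count_cons, beq_iff_eq, k1, k2, k3, k4, k5, k6, l1, l2, l3,
    l4, l5, l6, if_false, add_zero] at bX bP bQ
  refine seg6 (H.cnt hr ⟨k1, k2, k3, k4, k5, k6⟩) (H.cnt o1 ⟨l1, l2, l3, l4, l5, l6⟩) ?_ ?_ ?_
  · simpa only [add_assoc] using bX
  · simpa only [add_assoc] using bP
  · exact bQ

theorem PatA.seg_prod {A M B : List Pass} (hw : W6 x P₁ Q₁ x₂ Q₂ P₂ b c d e f g = A ++ (M ++ B))
    (hM : ∀ r ∈ M, 0 < b.count r + c.count r + d.count r + e.count r + f.count r + g.count r)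
    (hcl : ∀ r ∈ M, part (mm D) r ∈ M) :
    (M.map (PairedCrossings.lett (m' D k))).prod = 1 ∧ (M.map sg).sum = 0 := by
  have hne : ∀ r ∈ M, kap r ≠ kap x ∧ colour r.crossing ≠ k := by
    intro r hr
    obtain ⟨h1, h2⟩ := H.sp_of_seg (hM r hr)
    obtain ⟨q1, q2, q3, q4⟩ := H.ne (H.std.mem H.hC h1) h2
    exact ⟨q1, q4⟩
  refine ⟨H.std.prod_seg k H.hC hw (fun r hr => (hne r hr).2) hcl (fun p hp q hq hpq => ?_),
    H.std.sum_sg H.hC hw hcl⟩
  rw [← Nat.not_odd_iff_even]
  intro ho
  have hpD := H.std.mem H.hC (H.sp_of_seg (hM p hp)).1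
  have hqD := H.std.mem H.hC (H.sp_of_seg (hM q hq)).1
  rcases H.odd p hpD q hqD hpq ho with ⟨h, -⟩ | ⟨h, -⟩
  · exact (hne p hp).1 h
  · exact (hne q hq).1 h

theorem PatA.ribbon : Movie false false D [] := by
  obtain ⟨m1, m2, m3⟩ := mems6 (x := x) (P₁ := P₁) (Q₁ := Q₁) (x₂ := x₂) (Q₂ := Q₂) (P₂ := P₂) (b := b) (c := c)
    (d := d) (e := e) (f := f) (g := g)
  have hb := H.seg_prod (A := [x]) (M := b) (B := P₁ :: (c ++ Q₁ :: (d ++ x₂ :: (e ++ Q₂ ::
    (f ++ P₂ :: g))))) (by simp [W6])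
    (fun r hr => by have := List.count_pos_iff.2 hr; omega)
    (fun r hr => (H.closed (by have := List.count_pos_iff.2 hr; omega)).1 hr)
  have hc := H.seg_prod (A := x :: (b ++ [P₁])) (M := c) (B := Q₁ :: (d ++ x₂ :: (e ++ Q₂ ::
    (f ++ P₂ :: g)))) (by simp [W6])
    (fun r hr => by have := List.count_pos_iff.2 hr; omega)
    (fun r hr => (H.closed (by have := List.count_pos_iff.2 hr; omega)).2.1 hr)
  have hd := H.seg_prod (A := x :: (b ++ P₁ :: (c ++ [Q₁]))) (M := d) (B := x₂ :: (e ++ Q₂ ::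
    (f ++ P₂ :: g))) (by simp [W6])
    (fun r hr => by have := List.count_pos_iff.2 hr; omega)
    (fun r hr => (H.closed (by have := List.count_pos_iff.2 hr; omega)).2.2.1 hr)
  have he := H.seg_prod (A := x :: (b ++ P₁ :: (c ++ Q₁ :: (d ++ [x₂])))) (M := e) (B := Q₂ ::
    (f ++ P₂ :: g)) (by simp [W6])
    (fun r hr => by have := List.count_pos_iff.2 hr; omega)
    (fun r hr => (H.closed (by have := List.count_pos_iff.2 hr; omega)).2.2.2.1 hr)
  have hf := H.seg_prod (A := x :: (b ++ P₁ :: (c ++ Q₁ :: (d ++ x₂ :: (e ++ [Q₂]))))) (M := f)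
    (B := P₂ :: g) (by simp [W6])
    (fun r hr => by have := List.count_pos_iff.2 hr; omega)
    (fun r hr => (H.closed (by have := List.count_pos_iff.2 hr; omega)).2.2.2.2.1 hr)
  have hg := H.seg_prod (A := x :: (b ++ P₁ :: (c ++ Q₁ :: (d ++ x₂ :: (e ++ Q₂ :: (f ++ [P₂]))))))
    (M := g) (B := []) (by simp [W6])
    (fun r hr => by have := List.count_pos_iff.2 hr; omega)
    (fun r hr => (H.closed (by have := List.count_pos_iff.2 hr; omega)).2.2.2.2.2 hr)
  have hcl := H.std.cl
  have hxD := H.std.mem H.hC m1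
  have hPD := H.std.mem H.hC m2
  have hQD := H.std.mem H.hC m3
  obtain ⟨-, x2, x3, x4, x5, x6, x7, x8, x9, x10⟩ := H.std.other H.hC (p := x) m1
  obtain ⟨y1, y2, y3, y4, y5, y6, y7, y8, y9, y10⟩ := H.std.other H.hC (p := P₁) m2
  obtain ⟨z1, z2, z3, z4, z5, z6, z7, z8, z9, z10⟩ := H.std.other H.hC (p := Q₁) m3
  rw [H.ex] at x2 x3 x4 x5 x6 x7 x8 x9 x10
  rw [H.eP] at y1 y2 y3 y4 y5 y6 y7 y8 y9 y10
  rw [H.eQ] at z1 z2 z3 z4 z5 z6 z7 z8 z9 z10
  have hP₂D := H.std.mem H.hC y1
  have hcP₂ : colour P₂.crossing = k := by rw [(kap_eq y3).1, H.hP]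
  have hoP₂ : P₂.isOver = P₁.isOver := (kap_eq y3).2 (by rw [H.hP]; exact H.hk)
  have cP₂ : P₂.crossing ≠ P₁.crossing := fun h' => y2 (hcl.1.eq_of hP₂D hPD h' hoP₂)
  have hQP : Q₁ = P₁.mate := by
    by_contra hne
    have c1 : Q₁.crossing ≠ P₁.crossing := by
      intro h'
      rcases hcl.1.eq_mate hPD hQD h' with h | h
      · exact H.hPQ (by rw [h])
      · exact hne h
    have c2 : Q₁.crossing = P₂.crossing := by
      rcases H.std.few.1 P₁ hPD Q₁ hQD P₂ hP₂D (by rw [H.hQ, H.hP]) (by rw [hcP₂, H.hP]) with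
        h | h | h
      · exact absurd h c1
      · exact absurd h cP₂
      · exact h.symm
    have c3 : Q₁ = P₂.mate := by
      rcases hcl.1.eq_mate hP₂D hQD c2 with h | h
      · exact absurd (by rw [h, y3]) H.hPQ
      · exact h
    have c4 : sg Q₁ = sg P₁ := by
      rw [c3, sg_mate, y4]; ring
    have hz := H.std.index_zero (x := x) (u := b ++ P₁ :: (c ++ Q₁ :: d))
      (v := e ++ Q₂ :: (f ++ P₂ :: g)) (b := β) (by
        have := H.hC
        rw [H.ex]
        simpa [W6] using this) (by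
        intro hodd r hr hkr
        rw [← Nat.not_odd_iff_even]
        intro ho
        rcases H.odd x.mate (hcl.1.1 x hxD) r hr hkr ho with ⟨h, -⟩ | ⟨-, h⟩
        · have := (kap_eq h).2 hodd
          simp at this
        · exact H.hx h)
    simp only [List.map_append, List.map_cons, List.sum_append, List.sum_cons, hb.2, hc.2, hd.2,
      c4] at hz
    rcases sg_or P₁ with h | h <;> rw [h] at hz <;> omega
  have hQP₂ : Q₂ = P₂.mate := by
    have h1 : kap P₂.mate = kap Q₁ := by
      rw [hQP]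
      simp only [kap, lc, mate_crossing, mate_isOver, hcP₂, H.hP, hoP₂]
    have h2 : P₂.mate ≠ Q₁ := by
      rw [hQP]
      intro h'
      exact y2 (by rw [← mate_mate P₂, h', mate_mate])
    rcases z10 P₂.mate (hcl.1.1 P₂ hP₂D) h1 with h | h
    · exact absurd h h2
    · exact h.symm
  refine H.std.ribbon k fun C hC => ?_
  by_cases hCC : C = (W6 x P₁ Q₁ x₂ Q₂ P₂ b c d e f g, β)
  · subst hCC
    simp only [W6, List.map_append, List.map_cons, List.prod_append, List.prod_cons, hb.1, hc.1,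
      hd.1, he.1, hf.1, hg.1, one_mul, mul_one]
    have l1 : PairedCrossings.lett (m' D k) P₁ * PairedCrossings.lett (m' D k) Q₁ = 1 := by
      rw [hQP]; exact lett_eq H.hP
    have l2 : PairedCrossings.lett (m' D k) Q₂ * PairedCrossings.lett (m' D k) P₂ = 1 := by
      rw [hQP₂]
      have := lett_eq (D := D) (p := P₂.mate) (k := k) (by simpa using hcP₂)
      rwa [mate_mate] at this
    have l3 : PairedCrossings.lett (m' D k) x₂ = (PairedCrossings.lett (m' D k) x)⁻¹ := by
      rw [lett_ne H.hx, lett_ne (by rw [(kap_eq x3).1]; exact H.hx), x6]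
    have l4 : ∀ (G : Type) [Group G] (a b c d e f : G), b * c = 1 → e * f = 1 → d = a⁻¹ →
        a * (b * (c * (d * (e * f)))) = 1 := by
      intro G _ a b c d e f h1 h2 h3
      rw [← mul_assoc b, h1, h2, h3]
      simp
    exact l4 _ _ _ _ _ _ _ l1 l2 l3
  · have hno : ∀ r ∈ C.1, colour r.crossing ≠ k := by
      intro r hr hrk
      apply hCC
      have hrD := H.std.mem hC hr
      rcases kap_of_colour H.hk H.hP H.hQ H.hPQ hrk with h' | h'
      · rcases y10 r hrD h' with h | h
        · exact H.std.uniq H.hC hC m2 (by rw [← h]; exact hr)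
        · exact H.std.uniq H.hC hC y1 (by rw [← h]; exact hr)
      · rcases z10 r hrD h' with h | h
        · exact H.std.uniq H.hC hC m3 (by rw [← h]; exact hr)
        · exact H.std.uniq H.hC hC z1 (by rw [← h]; exact hr)
    refine H.std.prod_seg k hC (A := []) (M := C.1) (B := []) (by simp) hno
      (fun r hr => (H.std.other hC hr).1) (fun p hp q hq hpq => ?_)
    rw [← Nat.not_odd_iff_even]
    intro ho
    rcases H.odd p (H.std.mem hC hp) q (H.std.mem hC hq) hpq ho with ⟨-, h⟩ | ⟨-, h⟩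
    · exact hno q hq h
    · exact hno p hp h

end

section
variable {D : Code} {n : Sym2 (ℕ × Bool) → ℕ} {k : ℕ}

theorem patA_arr (h : Std D n) (hk : k % 2 ≠ 0) {x : Pass} {u v : List Pass} {β : ℕ}
    (hC : (x :: (u ++ part (mm D) x :: v), β) ∈ D) (hx : colour x.crossing ≠ k)
    (odd : ∀ p ∈ passes D, ∀ q ∈ passes D, kap p ≠ kap q → Odd (n s(kap p, kap q)) →
      (kap p = kap x ∧ colour q.crossing = k) ∨ (kap q = kap x ∧ colour p.crossing = k))
    {Y Z : Pass} {b c d : List Pass} (hu : u = b ++ Y :: (c ++ Z :: d))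
    (hY : colour Y.crossing = k) (hZ : colour Z.crossing = k) (hYZ : kap Y ≠ kap Z)
    (hY' : part (mm D) Y ∉ u) (hZ' : part (mm D) Z ∉ u) : Movie false false D [] := by
  have mx : x ∈ (x :: (u ++ part (mm D) x :: v), β).1 := by simp
  have mY : Y ∈ (x :: (u ++ part (mm D) x :: v), β).1 := by simp [hu]
  have mZ : Z ∈ (x :: (u ++ part (mm D) x :: v), β).1 := by simp [hu]
  obtain ⟨x1, x2, x3, -⟩ := h.other hC mx
  obtain ⟨y1, y2, y3, y4, y5, -⟩ := h.other hC mY
  obtain ⟨z1, z2, z3, z4, z5, -⟩ := h.other hC mZ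
  have inv : ∀ {W : Pass}, W ∈ (x :: (u ++ part (mm D) x :: v), β).1 → W ∉ u →
      colour W.crossing = k → W ∈ v := by
    intro W hW hWu hWk
    simp only [List.mem_cons, List.mem_append] at hW
    rcases hW with rfl | h' | rfl | h'
    · exact absurd hWk hx
    · exact absurd h' hWu
    · exact absurd hWk (by rw [(kap_eq x3).1]; exact hx)
    · exact h'
  have vY := inv y1 hY' (by rw [(kap_eq y3).1, hY])
  have vZ := inv z1 hZ' (by rw [(kap_eq z3).1, hZ])
  obtain ⟨v₁, g, rfl⟩ := List.append_of_mem vY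
  have hne : part (mm D) Z ≠ part (mm D) Y := fun h' => hYZ (by rw [← y3, ← z3, h'])
  have vZ' : part (mm D) Z ∈ v₁ := by
    rcases List.mem_append.1 vZ with h' | h'
    · exact h'
    · rcases List.mem_cons.1 h' with h' | h'
      · exact absurd h' hne
      exfalso
      have hw : (x :: (u ++ part (mm D) x :: (v₁ ++ part (mm D) Y :: g)), β).1 =
          (x :: b) ++ Y :: ((c ++ Z :: (d ++ part (mm D) x :: v₁)) ++ part (mm D) Y :: g) := by
        simp [hu]
      have hev : Even (n s(kap Y, kap Z)) := by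
        rw [← Nat.not_odd_iff_even]
        intro ho
        rcases odd Y (h.mem hC mY) Z (h.mem hC mZ) hYZ ho with ⟨h', -⟩ | ⟨h', -⟩
        · exact hx (by rw [← hY]; exact (kap_eq h').1.symm)
        · exact hx (by rw [← hZ]; exact (kap_eq h').1.symm)
      have hin := ((h.btw_iff hC hw y3 (h.mem hC mZ) hYZ).1 hev).1 (by simp)
      have hnd := h.ndC hC
      rw [hw] at hnd
      obtain ⟨g₁, g₂, rfl⟩ := List.append_of_mem h'
      have n1 := notin (l₁ := (x :: b) ++ Y :: ((c ++ Z :: (d ++ part (mm D) x :: v₁)) ++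
        part (mm D) Y :: g₁)) (x := part (mm D) Z) (l₂ := g₂) (by simpa using hnd)
      exact n1.1 (List.mem_append_right _ (List.mem_cons_of_mem _ (List.mem_append_left _ hin)))
  obtain ⟨e, f, rfl⟩ := List.append_of_mem vZ'
  have H : PatA D n k x Y Z (part (mm D) x) (part (mm D) Z) (part (mm D) Y) b c d e f g β :=
    ⟨h, by simpa [W6, hu] using hC, hk, hx, hY, hZ, hYZ, rfl, rfl, rfl, odd⟩
  exact H.ribbon

theorem ribbon_patA (h : Std D n) (hk : k % 2 ≠ 0) {X : ℕ × Bool} (hX : X.1 ≠ k)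
    (h1 : Odd (n s(X, (k, true)))) (h2 : Odd (n s(X, (k, false))))
    (h3 : ∀ κ κ' : ℕ × Bool, κ ≠ κ' → Odd (n s(κ, κ')) →
      (κ = X ∧ κ'.1 = k) ∨ (κ' = X ∧ κ.1 = k)) : Movie false false D [] := by
  by_cases hx : ∃ x ∈ passes D, kap x = X
  swap
  · refine h.ribbon_even fun p hp q hq hpq => ?_
    rw [← Nat.not_odd_iff_even]
    intro ho
    rcases h3 _ _ hpq ho with ⟨h', -⟩ | ⟨h', -⟩
    · exact hx ⟨p, hp, h'⟩
    · exact hx ⟨q, hq, h'⟩
  by_cases hy : ∃ y ∈ passes D, colour y.crossing = k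
  swap
  · refine h.ribbon_even fun p hp q hq hpq => ?_
    rw [← Nat.not_odd_iff_even]
    intro ho
    rcases h3 _ _ hpq ho with ⟨-, h'⟩ | ⟨-, h'⟩
    · exact hy ⟨q, hq, h'⟩
    · exact hy ⟨p, hp, h'⟩
  obtain ⟨x, hx, rfl⟩ := hx
  obtain ⟨y, hy, hyk⟩ := hy
  obtain ⟨w, β, R, hS, hM, hp⟩ := h.start hx
  refine hM.trans ?_
  clear hM h
  rw [← hp] at hy
  clear hp hx
  generalize hD : (x :: w, β) :: R = D' at hS hy
  have hC : (x :: w, β) ∈ D' := by rw [← hD]; simp
  clear hD
  have hX' : colour x.crossing ≠ k := hX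
  obtain ⟨x1, x2, x3, -⟩ := hS.other hC (p := x) (by simp)
  have x1' : part (mm D') x ∈ w := by
    rcases List.mem_cons.1 x1 with h' | h'
    · exact absurd h' x2
    · exact h'
  obtain ⟨u, v, rfl⟩ := List.append_of_mem x1'
  have odd : ∀ p ∈ passes D', ∀ q ∈ passes D', kap p ≠ kap q → Odd (n s(kap p, kap q)) →
      (kap p = kap x ∧ colour q.crossing = k) ∨ (kap q = kap x ∧ colour p.crossing = k) :=
    fun p _ q _ hpq ho => h3 _ _ hpq ho
  have hkb : (k % 2 == 0) = false := by simpa using hk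
  have main : ∀ z ∈ passes D', colour z.crossing = k → ∃ Y ∈ u, part (mm D') Y ∉ u ∧
      kap Y = kap z ∧ colour Y.crossing = k := by
    intro z hz hzk
    have hne : kap x ≠ kap z := fun h' => hX' (by rw [← hzk]; exact (kap_eq h').1)
    have ho : Odd (n s(kap x, kap z)) := by
      have e : kap z = (k, z.isOver) := by
        simp only [kap, lc, hzk, hkb, Bool.or_false]
      rw [e]
      cases z.isOver
      · exact h2
      · exact h1
    have hb := (hS.btw_iff hC (A := []) (p := x) (p' := part (mm D') x) (M := u) (B := v) rfl x3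
      hz hne).2 ho
    obtain ⟨C', hC', hzC⟩ := mem_passes.1 hz
    obtain ⟨z1, z2, z3, z4, z5, -⟩ := hS.other hC' hzC
    by_cases hzu : z ∈ u
    · exact ⟨z, hzu, hb.1 hzu, rfl, hzk⟩
    · refine ⟨part (mm D') z, ?_, by rw [z5]; exact hzu, z3, by rw [(kap_eq z3).1, hzk]⟩
      by_contra h'
      exact hzu (hb.2 h')
  obtain ⟨Y, hYu, hYu', hYk, hYc⟩ := main y hy hyk
  obtain ⟨Z, hZu, hZu', hZk, hZc⟩ := main y.mate (hS.cl.1.1 y hy) hyk
  have hYZ : kap Y ≠ kap Z := by
    rw [hYk, hZk]
    intro h'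
    have := (kap_eq h').2 (by rw [mate_crossing, hyk]; exact hk)
    simp at this
  obtain ⟨L₁, L₂, hu⟩ := List.append_of_mem hYu
  have hZ' : Z ∈ L₁ ∨ Z ∈ L₂ := by
    rw [hu] at hZu
    simp only [List.mem_append, List.mem_cons] at hZu
    rcases hZu with h' | h' | h'
    · exact Or.inl h'
    · exact absurd (by rw [h']) hYZ
    · exact Or.inr h'
  rcases hZ' with h' | h'
  · obtain ⟨A, B, rfl⟩ := List.append_of_mem h'
    exact patA_arr hS hk hC hX' odd (Y := Z) (Z := Y) (b := A) (c := B) (d := L₂) (by simp [hu])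
      hZc hYc hYZ.symm hZu' hYu'
  · obtain ⟨A, B, rfl⟩ := List.append_of_mem h'
    exact patA_arr hS hk hC hX' odd (Y := Y) (Z := Z) (b := L₁) (c := A) (d := B) (by simp [hu])
      hYc hZc hYZ hYu' hZu'

end

/-! ### the second pattern: the two preimages of a double curve crossing one another -/

theorem seg4 {b c d e : List Pass} {r t : Pass}
    (hr : b.count r + c.count r + d.count r + e.count r = 1)
    (ht : b.count t + c.count t + d.count t + e.count t = 1)
    (hX : (0 < b.count r + c.count r) ↔ (0 < b.count t + c.count t))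
    (hP : (0 < c.count r + d.count r) ↔ (0 < c.count t + d.count t)) :
    (r ∈ b → t ∈ b) ∧ (r ∈ c → t ∈ c) ∧ (r ∈ d → t ∈ d) ∧ (r ∈ e → t ∈ e) := by
  simp only [← List.count_pos_iff]
  omega

/-- the word of the component, with the ends of the two curves -/
def W4 (y z₁ y₂ z₂ : Pass) (b c d e : List Pass) : List Pass :=
  y :: (b ++ z₁ :: (c ++ y₂ :: (d ++ z₂ :: e)))

section
variable {D : Code} {n : Sym2 (ℕ × Bool) → ℕ} {k : ℕ} {y z₁ y₂ z₂ : Pass}
  {b c d e : List Pass} {β : ℕ}

/-- the situation of the second pattern -/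
structure PatB (D : Code) (n : Sym2 (ℕ × Bool) → ℕ) (k : ℕ) (y z₁ y₂ z₂ : Pass)
    (b c d e : List Pass) (β : ℕ) : Prop where
  std : Std D n
  hC : (W4 y z₁ y₂ z₂ b c d e, β) ∈ D
  hk : k % 2 ≠ 0
  hy : colour y.crossing = k
  hz : colour z₁.crossing = k
  hyz : kap y ≠ kap z₁
  ey : part (mm D) y = y₂
  ez : part (mm D) z₁ = z₂
  mate : z₁ = y.mate ∨ z₂ = y.mate
  odd : ∀ p ∈ passes D, ∀ q ∈ passes D, kap p ≠ kap q → Odd (n s(kap p, kap q)) →
    colour p.crossing = k ∧ colour q.crossing = k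

theorem count4 (r : Pass) : (W4 y z₁ y₂ z₂ b c d e).count r =
    (b.count r + c.count r + d.count r + e.count r) +
    ((if y = r then 1 else 0) + (if z₁ = r then 1 else 0) +
    (if y₂ = r then 1 else 0) + (if z₂ = r then 1 else 0)) := by
  simp only [W4, List.count_cons, List.count_append, beq_iff_eq]
  ring

theorem mems4 : y ∈ W4 y z₁ y₂ z₂ b c d e ∧ z₁ ∈ W4 y z₁ y₂ z₂ b c d e := by
  simp [W4]

/-- a passage different from the four special ones -/
def Sp4 (y z₁ y₂ z₂ r : Pass) : Prop := y ≠ r ∧ z₁ ≠ r ∧ y₂ ≠ r ∧ z₂ ≠ r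

variable (H : PatB D n k y z₁ y₂ z₂ b c d e β)
include H

theorem PatB.special {r : Pass} (hr : r ∈ passes D) (h : colour r.crossing = k) :
    r ∈ W4 y z₁ y₂ z₂ b c d e ∧ ¬Sp4 y z₁ y₂ z₂ r := by
  obtain ⟨m1, m2⟩ := mems4 (y := y) (z₁ := z₁) (y₂ := y₂) (z₂ := z₂) (b := b) (c := c) (d := d)
    (e := e)
  obtain ⟨o1, -, -, -, -, -, -, -, -, o⟩ := H.std.other H.hC (p := y) m1
  obtain ⟨o1', -, -, -, -, -, -, -, -, o'⟩ := H.std.other H.hC (p := z₁) m2
  rw [H.ey] at o o1
  rw [H.ez] at o' o1'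
  rcases kap_of_colour H.hk H.hy H.hz H.hyz h with h | h
  · rcases o r hr h with rfl | rfl
    · exact ⟨m1, fun h => h.1 rfl⟩
    · exact ⟨o1, fun h => h.2.2.1 rfl⟩
  · rcases o' r hr h with rfl | rfl
    · exact ⟨m2, fun h => h.2.1 rfl⟩
    · exact ⟨o1', fun h => h.2.2.2 rfl⟩

theorem PatB.cnt {r : Pass} (hr : r ∈ W4 y z₁ y₂ z₂ b c d e) (h : Sp4 y z₁ y₂ z₂ r) :
    b.count r + c.count r + d.count r + e.count r = 1 := by
  have h1 := List.count_eq_one_of_mem (H.std.ndC H.hC) hr
  simp only [count4 r] at h1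
  obtain ⟨k1, k2, k3, k4⟩ := h
  simpa [k1, k2, k3, k4] using h1

theorem PatB.sp_of_seg {r : Pass} (h : 0 < b.count r + c.count r + d.count r + e.count r) :
    r ∈ W4 y z₁ y₂ z₂ b c d e ∧ Sp4 y z₁ y₂ z₂ r := by
  have h0 := count4 (y := y) (z₁ := z₁) (y₂ := y₂) (z₂ := z₂) (b := b) (c := c) (d := d)
    (e := e) r
  have hr : r ∈ W4 y z₁ y₂ z₂ b c d e := by
    rw [← List.count_pos_iff]
    omega
  have h1 := List.count_eq_one_of_mem (H.std.ndC H.hC) hr
  simp only at h1
  rw [h0] at h1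
  refine ⟨hr, ?_⟩
  refine ⟨?_, ?_, ?_, ?_⟩ <;> intro h' <;> simp only [h', if_true] at h1 <;> omega

theorem PatB.closed {r : Pass} (h : 0 < b.count r + c.count r + d.count r + e.count r) :
    (r ∈ b → part (mm D) r ∈ b) ∧ (r ∈ c → part (mm D) r ∈ c) ∧ (r ∈ d → part (mm D) r ∈ d) ∧
      (r ∈ e → part (mm D) r ∈ e) := by
  obtain ⟨hr, hs⟩ := H.sp_of_seg h
  have hrD := H.std.mem H.hC hr
  obtain ⟨o1, o2, o3, o4, o5, o6, o7, o8, o9, o10⟩ := H.std.other H.hC hr
  obtain ⟨m1, m2⟩ := mems4 (y := y) (z₁ := z₁) (y₂ := y₂) (z₂ := z₂) (b := b) (c := c) (d := d)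
    (e := e)
  have hrk : colour r.crossing ≠ k := fun h' => (H.special hrD h').2 hs
  have htk : colour (part (mm D) r).crossing ≠ k := by rw [(kap_eq o3).1]; exact hrk
  have htD := H.std.mem H.hC o1
  obtain ⟨-, -, ky, -⟩ := H.std.other H.hC (p := y) m1
  obtain ⟨-, -, kz, -⟩ := H.std.other H.hC (p := z₁) m2
  rw [H.ey] at ky
  rw [H.ez] at kz
  have hs' : Sp4 y z₁ y₂ z₂ (part (mm D) r) := by
    refine ⟨?_, ?_, ?_, ?_⟩ <;> intro h' <;> apply htk <;> rw [← h']
    · exact H.hy
    · exact H.hz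
    · rw [(kap_eq ky).1, H.hy]
    · rw [(kap_eq kz).1, H.hz]
  have ny : kap y ≠ kap r := fun h' => hrk (by rw [← H.hy]; exact (kap_eq h').1.symm)
  have nz : kap z₁ ≠ kap r := fun h' => hrk (by rw [← H.hz]; exact (kap_eq h').1.symm)
  have evX : Even (n s(kap y, kap r)) := by
    rw [← Nat.not_odd_iff_even]
    exact fun ho => hrk (H.odd y (H.std.mem H.hC m1) r hrD ny ho).2
  have evP : Even (n s(kap z₁, kap r)) := by
    rw [← Nat.not_odd_iff_even]
    exact fun ho => hrk (H.odd z₁ (H.std.mem H.hC m2) r hrD nz ho).2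
  have bX := (H.std.btw_iff H.hC (A := []) (p := y) (p' := y₂) (M := b ++ z₁ :: c)
    (B := d ++ z₂ :: e) (by simp [W4]) ky hrD ny).1 evX
  have bP := (H.std.btw_iff H.hC (A := y :: b) (p := z₁) (p' := z₂) (M := c ++ y₂ :: d)
    (B := e) (by simp [W4]) kz hrD nz).1 evP
  rw [← List.count_pos_iff, ← List.count_pos_iff] at bX bP
  obtain ⟨k1, k2, k3, k4⟩ := hs
  obtain ⟨l1, l2, l3, l4⟩ := hs'
  simp only [List.count_append, List.count_cons, beq_iff_eq, k1, k2, k3, k4, l1, l2, l3,
    l4, if_false, add_zero] at bX bP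
  exact seg4 (H.cnt hr ⟨k1, k2, k3, k4⟩) (H.cnt o1 ⟨l1, l2, l3, l4⟩) bX bP

theorem PatB.seg_prod {A M B : List Pass} (hw : W4 y z₁ y₂ z₂ b c d e = A ++ (M ++ B))
    (hM : ∀ r ∈ M, 0 < b.count r + c.count r + d.count r + e.count r)
    (hcl : ∀ r ∈ M, part (mm D) r ∈ M) :
    (M.map (PairedCrossings.lett (m' D k))).prod = 1 := by
  have hne : ∀ r ∈ M, colour r.crossing ≠ k := by
    intro r hr h'
    obtain ⟨h1, h2⟩ := H.sp_of_seg (hM r hr)
    exact (H.special (H.std.mem H.hC h1) h').2 h2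
  refine H.std.prod_seg k H.hC hw hne hcl (fun p hp q hq hpq => ?_)
  rw [← Nat.not_odd_iff_even]
  intro ho
  have hpD := H.std.mem H.hC (H.sp_of_seg (hM p hp)).1
  have hqD := H.std.mem H.hC (H.sp_of_seg (hM q hq)).1
  exact hne p hp (H.odd p hpD q hqD hpq ho).1

theorem PatB.ribbon : Movie false false D [] := by
  obtain ⟨m1, m2⟩ := mems4 (y := y) (z₁ := z₁) (y₂ := y₂) (z₂ := z₂) (b := b) (c := c) (d := d)
    (e := e)
  have hb := H.seg_prod (A := [y]) (M := b) (B := z₁ :: (c ++ y₂ :: (d ++ z₂ :: e)))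
    (by simp [W4]) (fun r hr => by have := List.count_pos_iff.2 hr; omega)
    (fun r hr => (H.closed (by have := List.count_pos_iff.2 hr; omega)).1 hr)
  have hc := H.seg_prod (A := y :: (b ++ [z₁])) (M := c) (B := y₂ :: (d ++ z₂ :: e))
    (by simp [W4]) (fun r hr => by have := List.count_pos_iff.2 hr; omega)
    (fun r hr => (H.closed (by have := List.count_pos_iff.2 hr; omega)).2.1 hr)
  have hd := H.seg_prod (A := y :: (b ++ z₁ :: (c ++ [y₂]))) (M := d) (B := z₂ :: e)
    (by simp [W4]) (fun r hr => by have := List.count_pos_iff.2 hr; omega)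
    (fun r hr => (H.closed (by have := List.count_pos_iff.2 hr; omega)).2.2.1 hr)
  have he := H.seg_prod (A := y :: (b ++ z₁ :: (c ++ y₂ :: (d ++ [z₂])))) (M := e) (B := [])
    (by simp [W4]) (fun r hr => by have := List.count_pos_iff.2 hr; omega)
    (fun r hr => (H.closed (by have := List.count_pos_iff.2 hr; omega)).2.2.2 hr)
  have hcl := H.std.cl
  have hyD := H.std.mem H.hC m1
  have hzD := H.std.mem H.hC m2
  obtain ⟨y1, y2, y3, y4, y5, y6, y7, y8, y9, y10⟩ := H.std.other H.hC (p := y) m1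
  obtain ⟨z1, z2', z3, z4, z5, z6, z7, z8, z9, z10⟩ := H.std.other H.hC (p := z₁) m2
  rw [H.ey] at y1 y2 y3 y4 y5 y6 y7 y8 y9 y10
  rw [H.ez] at z1 z2' z3 z4 z5 z6 z7 z8 z9 z10
  have hy₂D := H.std.mem H.hC y1
  have hz₂D := H.std.mem H.hC z1
  have hcy₂ : colour y₂.crossing = k := by rw [(kap_eq y3).1, H.hy]
  have hoy₂ : y₂.isOver = y.isOver := (kap_eq y3).2 (by rw [H.hy]; exact H.hk)
  have hkm : kap y₂.mate = kap y.mate := by
    simp only [kap, lc, mate_crossing, mate_isOver, hcy₂, H.hy, hoy₂]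
  have hnm : y₂.mate ≠ y.mate := by
    intro h'
    exact y2 (by rw [← mate_mate y₂, h', mate_mate])
  have hprod : ((W4 y z₁ y₂ z₂ b c d e).map (PairedCrossings.lett (m' D k))).prod = 1 := by
    simp only [W4, List.map_append, List.map_cons, List.prod_append, List.prod_cons, hb, hc,
      hd, he, one_mul, mul_one]
    have l1 : PairedCrossings.lett (m' D k) y * PairedCrossings.lett (m' D k) y.mate = 1 :=
      lett_eq H.hy
    have l2 : PairedCrossings.lett (m' D k) y₂ * PairedCrossings.lett (m' D k) y₂.mate = 1 :=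
      lett_eq hcy₂
    have l3 : PairedCrossings.lett (m' D k) y₂.mate * PairedCrossings.lett (m' D k) y₂ = 1 := by
      have := lett_eq (D := D) (p := y₂.mate) (k := k) (by simpa using hcy₂)
      rwa [mate_mate] at this
    rcases H.mate with h | h
    · have h' : z₂ = y₂.mate := by
        rcases z10 y₂.mate (hcl.1.1 _ hy₂D) (by rw [hkm, h]) with h' | h'
        · exact absurd (h'.trans h) hnm
        · exact h'.symm
      rw [h, h', ← mul_assoc, l1, one_mul, l2]
    · have h' : z₁ = y₂.mate := by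
        rcases z10 y₂.mate (hcl.1.1 _ hy₂D) (by rw [hkm, ← h, z3]) with h' | h'
        · exact h'.symm
        · exact absurd (h'.trans h) hnm
      rw [h, h']
      have : ∀ (G : Type) [Group G] (a b c d : G), b * c = 1 → a * d = 1 →
          a * (b * (c * d)) = 1 := by
        intro G _ a b c d h1 h2
        rw [← mul_assoc b, h1, one_mul, h2]
      exact this _ _ _ _ _ l3 l1
  refine H.std.ribbon k fun C hC => ?_
  by_cases hCC : C = (W4 y z₁ y₂ z₂ b c d e, β)
  · subst hCC
    exact hprod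
  · have hno : ∀ r ∈ C.1, colour r.crossing ≠ k := by
      intro r hr hrk
      exact hCC (H.std.uniq H.hC hC (H.special (H.std.mem hC hr) hrk).1 hr)
    refine H.std.prod_seg k hC (A := []) (M := C.1) (B := []) (by simp) hno
      (fun r hr => (H.std.other hC hr).1) (fun p hp q hq hpq => ?_)
    rw [← Nat.not_odd_iff_even]
    intro ho
    exact hno p hp (H.odd p (H.std.mem hC hp) q (H.std.mem hC hq) hpq ho).1

end

section
variable {D : Code} {n : Sym2 (ℕ × Bool) → ℕ} {k : ℕ}

theorem ribbon_patB (h : Std D n) (hk : k % 2 ≠ 0)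
    (h1 : Odd (n s((k, true), (k, false))))
    (h3 : ∀ κ κ' : ℕ × Bool, κ ≠ κ' → Odd (n s(κ, κ')) → κ.1 = k ∧ κ'.1 = k) :
    Movie false false D [] := by
  by_cases hy : ∃ y ∈ passes D, colour y.crossing = k
  swap
  · refine h.ribbon_even fun p hp q hq hpq => ?_
    rw [← Nat.not_odd_iff_even]
    intro ho
    exact hy ⟨p, hp, (h3 _ _ hpq ho).1⟩
  obtain ⟨y, hy, hyk⟩ := hy
  obtain ⟨w, β, R, hS, hM, hp⟩ := h.start hy
  refine hM.trans ?_
  clear hM h
  rw [← hp] at hy
  clear hp
  generalize hD : (y :: w, β) :: R = D' at hS hy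
  have hC : (y :: w, β) ∈ D' := by rw [← hD]; simp
  clear hD
  obtain ⟨x1, x2, x3, -⟩ := hS.other hC (p := y) (by simp)
  have x1' : part (mm D') y ∈ w := by
    rcases List.mem_cons.1 x1 with h' | h'
    · exact absurd h' x2
    · exact h'
  obtain ⟨u, v, rfl⟩ := List.append_of_mem x1'
  have odd : ∀ p ∈ passes D', ∀ q ∈ passes D', kap p ≠ kap q → Odd (n s(kap p, kap q)) →
      colour p.crossing = k ∧ colour q.crossing = k :=
    fun p _ q _ hpq ho => h3 _ _ hpq ho
  have hkb : (k % 2 == 0) = false := by simpa using hk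
  have hz : y.mate ∈ passes D' := hS.cl.1.1 y hy
  have hyz : kap y ≠ kap y.mate := by
    intro h'
    have := (kap_eq h').2 (by rw [mate_crossing, hyk]; exact hk)
    simp at this
  have ho : Odd (n s(kap y, kap y.mate)) := by
    have e : kap y = (k, y.isOver) := by
      simp only [kap, lc, hyk, hkb, Bool.or_false]
    have e' : kap y.mate = (k, !y.isOver) := by
      simp only [kap, lc, mate_crossing, mate_isOver, hyk, hkb, Bool.or_false]
    rw [e, e']
    cases y.isOver
    · rw [Sym2.eq_swap]; exact h1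
    · exact h1
  have hb := (hS.btw_iff hC (A := []) (p := y) (p' := part (mm D') y) (M := u) (B := v) rfl x3
    hz hyz).2 ho
  obtain ⟨C', hC', hzC⟩ := mem_passes.1 hz
  obtain ⟨z1, z2, z3, z4, z5, -⟩ := hS.other hC' hzC
  have hzk : colour y.mate.crossing = k := hyk
  obtain ⟨Z, hZu, hZu', hZk, hZc, hZm⟩ : ∃ Z ∈ u, part (mm D') Z ∉ u ∧
      kap Z = kap y.mate ∧ colour Z.crossing = k ∧ (Z = y.mate ∨ part (mm D') Z = y.mate) := by
    by_cases hzu : y.mate ∈ u
    · exact ⟨y.mate, hzu, hb.1 hzu, rfl, hzk, Or.inl rfl⟩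
    · refine ⟨part (mm D') y.mate, ?_, by rw [z5]; exact hzu, z3, by rw [(kap_eq z3).1, hzk],
        Or.inr z5⟩
      by_contra h'
      exact hzu (hb.2 h')
  have mZ : Z ∈ (y :: (u ++ part (mm D') y :: v), β).1 := by simp [hZu]
  obtain ⟨w1, w2, w3, w4, w5, -⟩ := hS.other hC mZ
  have hv : part (mm D') Z ∈ v := by
    have w1' := w1
    simp only [List.mem_cons, List.mem_append] at w1'
    rcases w1' with h' | h' | h' | h'
    · exact absurd (by rw [← hZk, ← w3, h']) hyz
    · exact absurd h' hZu'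
    · exact absurd (by rw [← hZk, ← w3, h', x3]) hyz
    · exact h'
  obtain ⟨b, c, rfl⟩ := List.append_of_mem hZu
  obtain ⟨d, e, rfl⟩ := List.append_of_mem hv
  have H : PatB D' n k y Z (part (mm D') y) (part (mm D') Z) b c d e β :=
    ⟨hS, by simpa [W4] using hC, hk, hyk, hZc, by rw [hZk]; exact hyz, rfl, rfl, hZm, odd⟩
  exact H.ribbon

end

/-! ### the kinds of triple points -/

theorem cnt3 {α : Type} [DecidableEq α] (a b c e : α) : [a, b, c].count e =
    (if a = e then 1 else 0) + (if b = e then 1 else 0) + (if c = e then 1 else 0) := by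
  simp only [List.count_cons, List.count_nil, beq_iff_eq]
  ring

theorem no_diag {κ κ' u : ℕ × Bool} (h : κ ≠ κ') : (if s(u, u) = s(κ, κ') then 1 else 0) = 0 := by
  rw [if_neg]
  intro h'
  rw [Sym2.eq_iff] at h'
  rcases h' with ⟨rfl, h'⟩ | ⟨rfl, h'⟩
  · exact h h'
  · exact h h'.symm

/-- the two pairs of the first pattern -/
theorem pair_odd {κ κ' X : ℕ × Bool} {k : ℕ} 
    (h : Odd ((if s(X, (k, true)) = s(κ, κ') then 1 else 0) +
      (if s(X, (k, false)) = s(κ, κ') then 1 else 0))) :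
    (κ = X ∧ κ'.1 = k) ∨ (κ' = X ∧ κ.1 = k) := by
  by_cases h1 : s(X, (k, true)) = s(κ, κ')
  · rw [Sym2.eq_iff] at h1
    rcases h1 with ⟨rfl, rfl⟩ | ⟨rfl, rfl⟩
    · exact Or.inl ⟨rfl, rfl⟩
    · exact Or.inr ⟨rfl, rfl⟩
  · by_cases h2 : s(X, (k, false)) = s(κ, κ')
    · rw [Sym2.eq_iff] at h2
      rcases h2 with ⟨rfl, rfl⟩ | ⟨rfl, rfl⟩
      · exact Or.inl ⟨rfl, rfl⟩
      · exact Or.inr ⟨rfl, rfl⟩
    · rw [if_neg h1, if_neg h2] at h
      simp at h

theorem pair_ne {X : ℕ × Bool} {k : ℕ} (hX : X.1 ≠ k) : s(X, (k, true)) ≠ s(X, (k, false)) := by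
  intro h
  rw [Sym2.eq_iff] at h
  rcases h with ⟨-, h⟩ | ⟨h, -⟩
  · simp at h
  · exact hX (by rw [h])

/-- the four cases for the triple point -/
theorem pattern (A B G : ℕ) (T : List (Sym2 (ℕ × Bool)))
    (hT : T = [s((A, true), (B, true)), s((A, A % 2 == 0), (G, true)),
      s((B, B % 2 == 0), (G, G % 2 == 0))]) :
    ((∀ e ∈ T, ¬e.IsDiag) ∧ T.Nodup) ∨
    (∀ κ κ' : ℕ × Bool, κ ≠ κ' → Even (T.count s(κ, κ'))) ∨
    (∃ k, k % 2 ≠ 0 ∧ Odd (T.count s((k, true), (k, false))) ∧
      ∀ κ κ' : ℕ × Bool, κ ≠ κ' → Odd (T.count s(κ, κ')) → κ.1 = k ∧ κ'.1 = k) ∨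
    (∃ (k : ℕ) (X : ℕ × Bool), k % 2 ≠ 0 ∧ X.1 ≠ k ∧ Odd (T.count s(X, (k, true))) ∧
      Odd (T.count s(X, (k, false))) ∧
      ∀ κ κ' : ℕ × Bool, κ ≠ κ' → Odd (T.count s(κ, κ')) →
        (κ = X ∧ κ'.1 = k) ∨ (κ' = X ∧ κ.1 = k)) := by
  -- the last alternative from the form of the list
  have alt4 : ∀ (k : ℕ) (X : ℕ × Bool), k % 2 ≠ 0 → X.1 ≠ k →
      (∀ κ κ' : ℕ × Bool, κ ≠ κ' → T.count s(κ, κ') =
        (if s(X, (k, true)) = s(κ, κ') then 1 else 0) +
        (if s(X, (k, false)) = s(κ, κ') then 1 else 0)) →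
      ∃ (k : ℕ) (X : ℕ × Bool), k % 2 ≠ 0 ∧ X.1 ≠ k ∧ Odd (T.count s(X, (k, true))) ∧
      Odd (T.count s(X, (k, false))) ∧
      ∀ κ κ' : ℕ × Bool, κ ≠ κ' → Odd (T.count s(κ, κ')) →
        (κ = X ∧ κ'.1 = k) ∨ (κ' = X ∧ κ.1 = k) := by
    intro k X hk hX hc
    refine ⟨k, X, hk, hX, ?_, ?_, fun κ κ' hκ ho => ?_⟩
    · rw [hc _ _ (fun h => hX (by rw [h])), if_pos rfl, if_neg (pair_ne hX).symm]
      decide
    · rw [hc _ _ (fun h => hX (by rw [h])), if_pos rfl, if_neg (pair_ne hX)]
      decide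
    · rw [hc _ _ hκ] at ho
      exact pair_odd ho
  by_cases hAB : A = B
  · subst hAB
    by_cases hAG : A = G
    · subst hAG
      cases hA : (A % 2 == 0)
      · right; right; left
        rw [hA] at hT
        have hk : A % 2 ≠ 0 := by simpa using hA
        refine ⟨A, hk, ?_, fun κ κ' hκ ho => ?_⟩
        · rw [hT, cnt3, no_diag (by simp), no_diag (by simp), if_pos Sym2.eq_swap]
          decide
        · rw [hT, cnt3, no_diag hκ, no_diag hκ] at ho
          by_cases h : s((A, false), (A, true)) = s(κ, κ')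
          · rw [Sym2.eq_iff] at h
            rcases h with ⟨rfl, rfl⟩ | ⟨rfl, rfl⟩ <;> exact ⟨rfl, rfl⟩
          · rw [if_neg h] at ho
            simp at ho
      · right; left
        intro κ κ' hκ
        rw [hT, hA, cnt3, no_diag hκ]
        simp
    · cases hG : (G % 2 == 0)
      · right; right; right
        rw [hG] at hT
        refine alt4 G (A, A % 2 == 0) (by simpa using hG) hAG fun κ κ' hκ => ?_
        rw [hT, cnt3, no_diag hκ, zero_add]
      · right; left
        intro κ κ' hκ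
        rw [hT, hG, cnt3, no_diag hκ, zero_add]
        exact Even.add_self _
  · by_cases hBG : B = G
    · subst hBG
      cases hA : (A % 2 == 0)
      · right; right; right
        rw [hA] at hT
        refine alt4 A (B, true) (by simpa using hA) (fun h => hAB h.symm) fun κ κ' hκ => ?_
        rw [hT, cnt3, no_diag hκ, add_zero, Sym2.eq_swap (a := (A, true)),
          Sym2.eq_swap (a := (A, false))]
      · right; left
        intro κ κ' hκ
        rw [hT, hA, cnt3, no_diag hκ, add_zero]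
        exact Even.add_self _
    · by_cases hAG : A = G
      · subst hAG
        cases hA : (A % 2 == 0)
        · left
          rw [hT, hA]
          refine ⟨?_, ?_⟩
          · simp [hAB, hBG]
          · simp [hAB, hBG, Ne.symm hAB]
        · cases hB : (B % 2 == 0)
          · right; right; right
            rw [hA, hB] at hT
            refine alt4 B (A, true) (by simpa using hB) hAB fun κ κ' hκ => ?_
            rw [hT, cnt3, no_diag hκ, add_zero, Sym2.eq_swap (a := (B, false))]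
          · right; left
            intro κ κ' hκ
            rw [hT, hA, hB, cnt3, no_diag hκ, add_zero, Sym2.eq_swap (a := (B, true))]
            exact Even.add_self _
      · left
        rw [hT]
        refine ⟨?_, ?_⟩
        · simp [hAB, hBG, hAG]
        · simp [hAB, hBG, hAG, Ne.symm hAB, Ne.symm hBG, Ne.symm hAG]

theorem shape {Z : ℕ → Prop} {D : Code} {T : List (Sym2 (ℕ × Bool))} (h : ZMovie Z D T) :
    T.length ≤ 3 → T = [] ∨ ∃ x y z, T = prs x y z := by
  induction h with
  | nil => exact fun _ => Or.inl rfl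
  | step h hs hm ih => exact ih
  | @three D D' T h A B C E X Y W t m b x y z hT hP hD hD' hZ hm ih =>
    intro hl
    right
    refine ⟨x, y, z, ?_⟩
    simp only [prs, List.length_append, List.length_cons, List.length_nil] at hl
    rw [List.eq_nil_of_length_eq_zero (l := T) (by omega), List.append_nil]
  | inner h A B C E X Y W t m b x y z hT hP hD hD' hZ hm ih => exact ih

/-- Let `L` be (the Gauss code of) a classical link, and let `D` be a classical link obtained from `L`
by a movie without births. Suppose that `D` bounds disjoint discs in `M × I`, `M` a 3-manifold (given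
by a movie of virtual link diagrams with births), and let `A` be a set of double curves of the
projection of these discs (those with colours outside `Z`) which contains all double curves meeting
`D`. Suppose that through each triple point there pass none, one or three branches of curves of `A`,
and that at most one triple point has three of them (for example, that there is at most one triple
point). Then `L` bounds disjoint ribbon discs in the 4-ball: discs given by a movie of classical links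
without births. -/
theorem result (L : List (List Pass)) (Z : ℕ → Prop) (D : Code) (T : List (Sym2 (ℕ × Bool)))
    (hL : Classical L.zipIdx) (h₁ : Movie true false L.zipIdx D) (h₂ : ZMovie Z D T)
    (hZ : ∀ p ∈ passes D, ¬Z (colour p.crossing)) (hF : Few D) (hT : T.length ≤ 3) :
    Movie true false L.zipIdx [] := by
  have hn : (D.map Prod.snd).Nodup := by
    refine nodup_movie h₁ ?_
    rw [List.zipIdx_map_snd]
    exact List.nodup_range'
  have hD := classical_of_movie h₁ hL
  have hS : Std D fun e => T.count e := by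
    refine ⟨hD, hn, hF, fun C hC p hp => ?_, fun p hp q hq hpq => ?_⟩
    · have hz := hZ p hp
      have := jl_final (κ := kap p) (κ' := ((kap p).1, !(kap p).2)) hn
        (jl_zmovie (by intro h; simpa using congrArg Prod.snd h) hz hz h₂)
      exact (this.1 C hC).1
    · exact (jl_final hn (jl_zmovie hpq (hZ p hp) (hZ q hq) h₂)).2
  rcases shape h₂ hT with rfl | ⟨x, y, z, hx⟩
  · refine h₁.trans (movie_mono (hS.ribbon_even fun p _ q _ _ => ?_))
    simp
  · have hlist : T = [s((colour x, true), (colour y, true)),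
        s((colour x, colour x % 2 == 0), (colour z, true)),
        s((colour y, colour y % 2 == 0), (colour z, colour z % 2 == 0))] := by
      rw [hx]
      simp [prs, lc]
    rcases pattern (colour x) (colour y) (colour z) T hlist with h | h | ⟨k, h1, h2, h3⟩ |
      ⟨k, X, h1, h2, h3, h4, h5⟩
    · exact VirtualDiscs.result L Z D T hL h₁ (vmovie_of h₂ h.1 h.2) hZ
    · exact h₁.trans (movie_mono (hS.ribbon_even fun p _ q _ hpq => h _ _ hpq))
    · exact h₁.trans (movie_mono (ribbon_patB hS h1 h2 h3))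
    · exact h₁.trans (movie_mono (ribbon_patA hS h1 h2 h3 h4 h5))

end Pool.Agent.Results.MP_752436_gt.OneTriplePoint
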