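import Pool.Agent.Results.MP_752436_gt.PairedCrossings
import Pool.Agent.Y874.TP2.Defs
import Pool.Agent.Y874.TP2.Lem
import Pool.Agent.Y761.TP2.Flow
import Pool.Agent.Y468.SR.Labels

/-!
# Slice discs whose double curves cross an even number of times

The preimage of the double curves of the projection of a slice disc consists of curves in the disc.
If any two different ones of those meeting the boundary cross an even number of times, then the link
is a ribbon link.
-/

set_option autoImplicit false
set_option linter.unusedSimpArgs false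

namespace Pool.Agent.Results.MP_752436_gt.EvenCrossings

open Pool.Agent.Y468.SR
open Pool.Agent.Y874.TP (colour TriAt)
open Pool.Agent.Y874.TP2 (CStep CReid prs lc kap sg om part om_key sum_zero sum_single)
open Pool.Agent.Y761.TP2

/-- `SurfMovie Z D T`: the virtual link with Gauss code `D` bounds disjoint connected surfaces, one
for each label, by a movie of virtual link diagrams (well-formed Gauss codes, no planarity required)
ending with the empty diagram, in which births are allowed. Crossings are named by pairs of natural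
numbers coded by one number, whose first member, the colour, names a double curve of the projection;
colours are kept by all moves, and branch points (moves of type I) lie on double curves of even
colours. `T` is the list, with multiplicities, of the pairs of curves in the preimage of the double
curves crossing one another at the triple points (three pairs for each move of type III). The
surfaces may have positive genus, but a component may be cut into two components of the boundary of
the same piece of surface only if one of these passes only through crossings with colours in `Z`. -/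
inductive SurfMovie (Z : ℕ → Prop) : Code → List (Sym2 (ℕ × Bool)) → Prop
  | nil : SurfMovie Z [] []
  | step {D D' : Code} {T : List (Sym2 (ℕ × Bool))} (h : WellFormed D) (hs : CStep D D')
      (hm : SurfMovie Z D' T) : SurfMovie Z D T
  | three {D D' : Code} {T : List (Sym2 (ℕ × Bool))} (h : WellFormed D)
      (A B C E : List (Pass ⊕ ℕ)) (X Y W t m b : Pass × Pass) (x y z : ℕ)
      (hT : TriAt x y z t m b) (hP : List.Perm [X, Y, W] [t, m, b])
      (hD : enc D = A ++ two X.1 X.2 ++ B ++ two Y.1 Y.2 ++ C ++ two W.1 W.2 ++ E)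
      (hD' : enc D' = A ++ two X.2 X.1 ++ B ++ two Y.2 Y.1 ++ C ++ two W.2 W.1 ++ E)
      (hm : SurfMovie Z D' T) : SurfMovie Z D (prs x y z ++ T)
  | handle {R : Code} {T : List (Sym2 (ℕ × Bool))} (x y : List Pass) (b : ℕ)
      (h : WellFormed ((x ++ y, b) :: R)) (hy : ∀ p ∈ y, Z (colour p.crossing))
      (hm : SurfMovie Z ((x, b) :: (y, b) :: R) T) : SurfMovie Z ((x ++ y, b) :: R) T

/-! ### values in the Heisenberg group -/

/-- the flow along the curve `κ` -/
def ff (κ : ℕ × Bool) (p : Pass) : ℤ := if kap p = κ then sg p else 0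

section
variable (κ κ' : ℕ × Bool)

/-- letter of a passage -/
def ph (p : Pass) : Hs := ⟨ff κ p, ff κ' p, 0⟩

/-- value of a word -/
def wv (w : List Pass) : Hs := (w.map (ph κ κ')).prod

/-- values of the components -/
def vv (D : Code) : List (Hs × ℕ) := D.map fun C => (wv κ κ' C.1, C.2)

/-- values of the components, from the encoding -/
def ee : List (Pass ⊕ ℕ) → Hs → List (Hs × ℕ)
  | [], _ => []
  | Sum.inl p :: l, g => ee l (g * ph κ κ' p)
  | Sum.inr b :: l, g => (g, b) :: ee l 1

end

variable {κ κ' : ℕ × Bool}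

theorem wv_nil : wv κ κ' [] = 1 := rfl

theorem wv_cons (p : Pass) (w : List Pass) : wv κ κ' (p :: w) = ph κ κ' p * wv κ κ' w := by
  simp [wv]

theorem wv_append (w w' : List Pass) : wv κ κ' (w ++ w') = wv κ κ' w * wv κ κ' w' := by
  simp [wv]

theorem wv_eq (w : List Pass) :
    wv κ κ' w = ⟨(w.map (ff κ)).sum, (w.map (ff κ')).sum, om (ff κ) (ff κ') w⟩ := by
  induction w with
  | nil => rfl
  | cons p w ih =>
    rw [wv_cons, ih]
    ext
    · simp only [ph, mul_a, List.map_cons, List.sum_cons]
    · simp only [ph, mul_b, List.map_cons, List.sum_cons]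
    · simp only [ph, mul_c, om]
      ring

theorem ee_map_append (w : List Pass) (l : List (Pass ⊕ ℕ)) (g : Hs) :
    ee κ κ' (w.map Sum.inl ++ l) g = ee κ κ' l (g * wv κ κ' w) := by
  induction w generalizing g with
  | nil => simp [wv_nil]
  | cons p w ih => simp [ee, ih, mul_assoc, wv_cons]

theorem ee_enc (D : Code) : ee κ κ' (enc D) 1 = vv κ κ' D := by
  induction D with
  | nil => rfl
  | cons C D ih =>
    rw [enc_cons, ee_map_append, ee, ih, one_mul]
    rfl

theorem ee_insert (A B : List (Pass ⊕ ℕ)) (p q : Pass) (h : ph κ κ' p * ph κ κ' q = 1)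
    (g : Hs) : ee κ κ' (A ++ two p q ++ B) g = ee κ κ' (A ++ B) g := by
  induction A generalizing g with
  | nil => simp [two, ee, mul_assoc, h]
  | cons a A ih =>
    rcases a with p | b
    · simpa [ee] using ih _
    · simpa [ee] using ih 1

/-- a central element -/
def zz (n : ℤ) : Hs := ⟨0, 0, n⟩

theorem zz_comm (n : ℤ) (g : Hs) : zz n * g = g * zz n := by
  ext
  · simp [zz, mul_a]
  · simp [zz, mul_b]
  · simp only [zz, mul_c]; ring

theorem zz_inv (n : ℤ) : zz n * zz (-n) = 1 := by
  ext
  · simp [zz, mul_a, one_a]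
  · simp [zz, mul_b, one_b]
  · simp [zz, mul_c, one_c]

/-- a central factor is carried to the end of the component -/
theorem ee_central (n : ℤ) (B : List (Pass ⊕ ℕ)) (hB : ∃ β, Sum.inr β ∈ B) (g : Hs) :
    ∃ L₁ v b L₂, ee κ κ' B g = L₁ ++ (v, b) :: L₂ ∧ ee κ κ' B (g * zz n) =
      L₁ ++ (v * zz n, b) :: L₂ := by
  induction B generalizing g with
  | nil => obtain ⟨β, hβ⟩ := hB; exact absurd hβ (by simp)
  | cons a B ih =>
    rcases a with p | b
    · obtain ⟨β, hβ⟩ := hB
      obtain ⟨L₁, v, b, L₂, h1, h2⟩ := ih ⟨β, by simpa using hβ⟩ (g * ph κ κ' p)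
      refine ⟨L₁, v, b, L₂, by simpa [ee] using h1, ?_⟩
      rw [ee, mul_assoc g, zz_comm, ← mul_assoc]
      exact h2
    · exact ⟨[], g, b, ee κ κ' B 1, rfl, rfl⟩

/-- the two words differ by a central factor at one component -/
theorem ee_swap (n : ℤ) (A B : List (Pass ⊕ ℕ)) (hB : ∃ β, Sum.inr β ∈ B) (p q : Pass)
    (hpq : ph κ κ' p * ph κ κ' q = ph κ κ' q * ph κ κ' p * zz n) (g : Hs) :
    ∃ L₁ v b L₂, ee κ κ' (A ++ two q p ++ B) g = L₁ ++ (v, b) :: L₂ ∧
      ee κ κ' (A ++ two p q ++ B) g = L₁ ++ (v * zz n, b) :: L₂ := by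
  induction A generalizing g with
  | nil =>
    obtain ⟨L₁, v, b, L₂, h1, h2⟩ := ee_central (κ := κ) (κ' := κ') n B hB
      (g * (ph κ κ' q * ph κ κ' p))
    refine ⟨L₁, v, b, L₂, ?_, ?_⟩
    · simpa [two, ee, mul_assoc] using h1
    · simp only [two, ee, List.nil_append, List.cons_append, mul_assoc]
      rw [hpq, ← mul_assoc]
      exact h2
  | cons a A ih =>
    rcases a with r | c
    · obtain ⟨L₁, v, b, L₂, h1, h2⟩ := ih (g * ph κ κ' r)
      exact ⟨L₁, v, b, L₂, by simpa [ee] using h1, by simpa [ee] using h2⟩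
    · obtain ⟨L₁, v, b, L₂, h1, h2⟩ := ih 1
      exact ⟨(g, c) :: L₁, v, b, L₂, by simpa [ee] using h1, by simpa [ee] using h2⟩

/-- The invariant: the values of the components and some central elements, with sum `2 n` modulo 4,
have for each label conjugates with product 1. -/
def JL (n : ℕ) (L : List (Hs × ℕ)) : Prop :=
  ∃ Q : List (Hs × ℕ), (∀ x ∈ Q, x.1.a = 0 ∧ x.1.b = 0) ∧
    (4 : ℤ) ∣ (Q.map fun x => x.1.c).sum - 2 * n ∧ ∀ b, CN (bv (L ++ Q) b)

theorem JL.perm {n : ℕ} {L L' : List (Hs × ℕ)} (hp : L.Perm L') (h : JL n L) : JL n L' := by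
  obtain ⟨Q, h1, h2, h3⟩ := h
  exact ⟨Q, h1, h2, fun b => (h3 b).perm (bv_perm (hp.append_right _) b)⟩

theorem JL.central {n : ℕ} {L₁ L₂ : List (Hs × ℕ)} {v : Hs} {b : ℕ} {k : ℤ} {n' : ℕ}
    (hn : (4 : ℤ) ∣ -k - 2 * n') (h : JL n (L₁ ++ (v, b) :: L₂)) :
    JL (n + n') (L₁ ++ (v * zz k, b) :: L₂) := by
  obtain ⟨Q, h1, h2, h3⟩ := h
  refine ⟨(zz (-k), b) :: Q, ?_, ?_, fun c => ?_⟩
  · intro x hx
    rcases List.mem_cons.1 hx with rfl | hx
    · exact ⟨rfl, rfl⟩
    · exact h1 x hx
  · rw [List.map_cons, List.sum_cons]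
    have e : (zz (-k)).c = -k := rfl
    obtain ⟨c₁, h2⟩ := h2
    obtain ⟨c₂, hn⟩ := hn
    refine ⟨c₁ + c₂, ?_⟩
    simp only [e]
    push_cast
    linarith
  · have h := h3 c
    have p1 : (bv (L₁ ++ (v, b) :: L₂ ++ Q) c).Perm (bv ((v, b) :: (L₁ ++ L₂ ++ Q)) c) := by
      refine bv_perm ?_ c
      rw [List.append_assoc, List.append_assoc]
      exact List.perm_middle
    have p2 : (bv (L₁ ++ (v * zz k, b) :: L₂ ++ (zz (-k), b) :: Q) c).Perm
        (bv ((v * zz k, b) :: (zz (-k), b) :: (L₁ ++ L₂ ++ Q)) c) := by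
      refine bv_perm ?_ c
      rw [List.append_assoc, List.append_assoc]
      refine List.perm_middle.trans (List.Perm.cons _ ?_)
      have := List.perm_middle (a := (zz (-k), b)) (l₁ := L₁ ++ L₂) (l₂ := Q)
      simpa only [List.append_assoc, List.append_eq] using this
    have h := h.perm p1
    refine CN.perm p2.symm ?_
    simp only [bv_cons] at h ⊢
    split_ifs at h ⊢ with hb
    · obtain ⟨r, hr, e⟩ := h.head
      refine CN.of_head (r := zz (-k) * r) ((PC.cons (zz (-k)) 1 r _ hr).of_eq (by simp)) ?_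
      have : v * zz k * (zz (-k) * r) = v * (zz k * zz (-k)) * r := by group
      rw [this, zz_inv, mul_one, e]
    · exact h

theorem sg_or (p : Pass) : sg p = 1 ∨ sg p = -1 := by
  unfold sg
  split_ifs
  · exact Or.inl rfl
  · exact Or.inr rfl

theorem ph_comm (p q : Pass) : ph κ κ' p * ph κ κ' q =
    ph κ κ' q * ph κ κ' p * zz (2 * (ff κ p * ff κ' q - ff κ q * ff κ' p)) := by
  ext
  · simp only [ph, zz, mul_a]; ring
  · simp only [ph, zz, mul_b]; ring
  · simp only [ph, zz, mul_c, mul_a, mul_b]; ring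

/-- whether the two passages belong to the curves `κ`, `κ'` -/
def hit (κ κ' : ℕ × Bool) (X : Pass × Pass) : ℕ :=
  if s(kap X.1, kap X.2) = s(κ, κ') then 1 else 0

theorem hit_dvd (hκ : κ ≠ κ') (X : Pass × Pass) :
    (4 : ℤ) ∣ -(2 * (ff κ X.1 * ff κ' X.2 - ff κ X.2 * ff κ' X.1)) - 2 * (hit κ κ' X : ℤ) := by
  obtain ⟨p, q⟩ := X
  unfold hit ff
  simp only [Sym2.eq_iff]
  by_cases h1 : kap p = κ <;> by_cases h2 : kap q = κ' <;> by_cases h3 : kap q = κ <;>
    by_cases h4 : kap p = κ'
  all_goals simp only [h1, h2, h3, h4, if_true, if_false, hκ, hκ.symm, true_and, and_true,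
    false_and, and_false, or_false, false_or, or_true, true_or, and_self, not_true_eq_false]
  all_goals first
    | exact absurd (h1.symm.trans h4) hκ
    | exact absurd (h3.symm.trans h2) hκ
    | skip
  all_goals rcases sg_or p with e | e <;> rcases sg_or q with e' | e' <;>
    (try simp only [e, e']) <;> norm_num

theorem three_swap {n : ℕ} (hκ : κ ≠ κ') {A B : List (Pass ⊕ ℕ)} (hB : ∃ β, Sum.inr β ∈ B)
    {X : Pass × Pass} (h : JL n (ee κ κ' (A ++ two X.2 X.1 ++ B) 1)) :
    JL (n + hit κ κ' X) (ee κ κ' (A ++ two X.1 X.2 ++ B) 1) := by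
  obtain ⟨L₁, v, b, L₂, h1, h2⟩ := ee_swap (κ := κ) (κ' := κ') _ A B hB X.1 X.2
    (ph_comm X.1 X.2) 1
  rw [h2]
  rw [h1] at h
  exact h.central (hit_dvd hκ X)

theorem enc_last {D : Code} {L R : List (Pass ⊕ ℕ)} {p : Pass} (h : enc D = L ++ Sum.inl p :: R) :
    ∃ β, Sum.inr β ∈ R := by
  rcases List.eq_nil_or_concat D with rfl | ⟨D₀, C, rfl⟩
  · simp at h
  · rcases List.eq_nil_or_concat R with rfl | ⟨R₀, a, rfl⟩
    · exfalso
      have h' : (enc D₀ ++ C.1.map Sum.inl) ++ [Sum.inr C.2] = L ++ [Sum.inl p] := by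
        simpa using h
      have := (List.append_inj' h' rfl).2
      simp at this
    · have h' : (enc D₀ ++ C.1.map Sum.inl) ++ [Sum.inr C.2] = (L ++ Sum.inl p :: R₀) ++ [a] := by
        simpa using h
      have h2 := (List.append_inj' h' rfl).2
      simp only [List.cons.injEq, and_true] at h2
      exact ⟨C.2, by simp [← h2]⟩

theorem count_prs {t m b : Pass × Pass} {x y z : ℕ} (hT : TriAt x y z t m b) :
    (prs x y z).count s(κ, κ') = hit κ κ' t + hit κ κ' m + hit κ κ' b := by
  cases hT with
  | mk sx sy sz τ μ β =>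
    have e1 : hit κ κ' (if τ then ((⟨x, true, sx⟩ : Pass), (⟨y, true, sy⟩ : Pass)) else
        (⟨y, true, sy⟩, ⟨x, true, sx⟩)) = if s(lc x true, lc y true) = s(κ, κ') then 1 else 0 := by
      cases τ
      · simp only [hit, kap, Bool.false_eq_true, if_false]
        rw [Sym2.eq_swap]
      · simp only [hit, kap, if_true]
    have e2 : hit κ κ' (if μ then ((⟨x, false, sx⟩ : Pass), (⟨z, true, sz⟩ : Pass)) else
        (⟨z, true, sz⟩, ⟨x, false, sx⟩)) = if s(lc x false, lc z true) = s(κ, κ') then 1 else 0 := by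
      cases μ
      · simp only [hit, kap, Bool.false_eq_true, if_false]
        rw [Sym2.eq_swap]
      · simp only [hit, kap, if_true]
    have e3 : hit κ κ' (if β then ((⟨y, false, sy⟩ : Pass), (⟨z, false, sz⟩ : Pass)) else
        (⟨z, false, sz⟩, ⟨y, false, sy⟩)) =
        if s(lc y false, lc z false) = s(κ, κ') then 1 else 0 := by
      cases β
      · simp only [hit, kap, Bool.false_eq_true, if_false]
        rw [Sym2.eq_swap]
      · simp only [hit, kap, if_true]
    rw [e1, e2, e3]
    simp only [prs, List.count_cons, List.count_nil, beq_iff_eq]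
    omega

theorem hit_perm {X Y W t m b : Pass × Pass} (hP : List.Perm [X, Y, W] [t, m, b]) :
    hit κ κ' X + hit κ κ' Y + hit κ κ' W = hit κ κ' t + hit κ κ' m + hit κ κ' b := by
  have := (hP.map (hit κ κ')).sum_eq
  simpa [add_assoc] using this

theorem jl_three {n : ℕ} (hκ : κ ≠ κ') {D D' : Code} {A B C E : List (Pass ⊕ ℕ)}
    {X Y W t m b : Pass × Pass} {x y z : ℕ} (hT : TriAt x y z t m b)
    (hP : List.Perm [X, Y, W] [t, m, b])
    (hD : enc D = A ++ two X.1 X.2 ++ B ++ two Y.1 Y.2 ++ C ++ two W.1 W.2 ++ E)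
    (hD' : enc D' = A ++ two X.2 X.1 ++ B ++ two Y.2 Y.1 ++ C ++ two W.2 W.1 ++ E)
    (h : JL n (vv κ κ' D')) : JL ((prs x y z).count s(κ, κ') + n) (vv κ κ' D) := by
  obtain ⟨β, hβ⟩ : ∃ β, Sum.inr β ∈ E :=
    enc_last (D := D) (L := A ++ two X.1 X.2 ++ B ++ two Y.1 Y.2 ++ C ++ [Sum.inl W.1]) (p := W.2)
      (by rw [hD]; simp [two])
  rw [← ee_enc, hD'] at h
  rw [← ee_enc, hD, count_prs hT, ← hit_perm hP]
  have h1 := three_swap hκ (A := A ++ two X.2 X.1 ++ B ++ two Y.2 Y.1 ++ C) (B := E) (X := W)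
    ⟨β, hβ⟩ h
  have h2 := three_swap hκ (A := A ++ two X.2 X.1 ++ B) (B := C ++ two W.1 W.2 ++ E) (X := Y)
    ⟨β, by simp [hβ]⟩ (by simpa only [List.append_assoc] using h1)
  have h3 := three_swap hκ (A := A) (B := B ++ two Y.1 Y.2 ++ C ++ two W.1 W.2 ++ E) (X := X)
    ⟨β, by simp [hβ]⟩ (by simpa only [List.append_assoc] using h2)
  have e : n + hit κ κ' W + hit κ κ' Y + hit κ κ' X =
      hit κ κ' X + hit κ κ' Y + hit κ κ' W + n := by omega
  rw [e] at h3
  simpa only [List.append_assoc] using h3

/-! ### the other steps -/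

theorem ph_mul_of_neg {p q : Pass} (h1 : kap q = kap p) (h2 : sg q = -sg p) :
    ph κ κ' p * ph κ κ' q = 1 := by
  have e : ∀ κ, ff κ q = -ff κ p := by
    intro κ
    unfold ff
    rw [h1, h2]
    split_ifs <;> simp
  ext
  · simp only [ph, mul_a, one_a, e]; ring
  · simp only [ph, mul_b, one_b, e]; ring
  · simp only [ph, mul_c, one_c, e]; ring

theorem kap_mate {p : Pass} (hc : colour p.crossing % 2 = 0) : kap p.mate = kap p := by
  simp [kap, lc, Pass.mate, hc]

theorem sg_mate (p : Pass) : sg p.mate = -sg p := by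
  obtain ⟨c, o, s⟩ := p
  unfold sg Pass.mate
  cases o <;> cases s <;> simp

theorem kap_same {p q : Pass} (ho : p.isOver = q.isOver)
    (hc : colour p.crossing = colour q.crossing) : kap q = kap p := by
  simp [kap, lc, ho, hc]

theorem sg_opp {p q : Pass} (ho : p.isOver = q.isOver) (hs : q.isPos = !p.isPos) :
    sg q = -sg p := by
  unfold sg
  rw [← ho, hs]
  cases p.isOver <;> cases p.isPos <;> simp

theorem vv_creid {D D' : Code} (h : CReid (enc D) (enc D')) : vv κ κ' D = vv κ κ' D' := by
  rw [← ee_enc, ← ee_enc]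
  generalize enc D = E at h
  generalize enc D' = E' at h
  cases h with
  | one A B p hc => exact ee_insert A B p p.mate (ph_mul_of_neg (kap_mate hc) (sg_mate p)) 1
  | twoSame A B C p q h ho hs hc =>
    have h1 := ee_insert (κ := κ) (κ' := κ') (A ++ two p q ++ B) C p.mate q.mate
      (ph_mul_of_neg (kap_same (by simp [ho]) hc) (sg_opp (by simp [ho]) (by simpa using hs))) 1
    have h2 := ee_insert (κ := κ) (κ' := κ') A (B ++ C) p q
      (ph_mul_of_neg (kap_same ho hc) (sg_opp ho hs)) 1
    rw [h1]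
    simpa only [List.append_assoc] using h2
  | twoOpp A B C p q h ho hs hc =>
    have h1 := ee_insert (κ := κ) (κ' := κ') (A ++ two p q ++ B) C q.mate p.mate
      (ph_mul_of_neg (kap_same (by simp [ho]) (by simpa using hc.symm))
        (sg_opp (by simp [ho]) (by simp [hs]))) 1
    have h2 := ee_insert (κ := κ) (κ' := κ') A (B ++ C) p q
      (ph_mul_of_neg (kap_same ho hc) (sg_opp ho hs)) 1
    rw [h1]
    simpa only [List.append_assoc] using h2

theorem vv_renamed {f : ℕ → ℕ} {D : Code}
    (hc : ∀ p ∈ passes D, colour (f p.crossing) = colour p.crossing) :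
    vv κ κ' (renamed f D) = vv κ κ' D := by
  unfold vv renamed
  rw [List.map_map]
  refine List.map_congr_left fun C hC => ?_
  simp only [Function.comp, Prod.mk.injEq, and_true]
  unfold wv
  rw [List.map_map]
  congr 1
  refine List.map_congr_left fun p hp => ?_
  have h := hc p (mem_passes.2 ⟨C, hC, hp⟩)
  have e1 : kap ⟨f p.crossing, p.isOver, p.isPos⟩ = kap p := by
    simp only [kap, lc, h]
  have e2 : sg ⟨f p.crossing, p.isOver, p.isPos⟩ = sg p := rfl
  simp only [Function.comp, ph, ff, e1, e2]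

theorem jl_relabel {n : ℕ} {x y : Hs} {b b' : ℕ} {L : List (Hs × ℕ)} (hb : b ≠ b')
    (h : JL n ((x, b) :: (y, b') :: L)) :
    JL n ((x * y, b) :: L.map fun C => (C.1, if C.2 = b' then b else C.2)) := by
  obtain ⟨Q, h1, h2, h3⟩ := h
  refine ⟨Q.map fun C => (C.1, if C.2 = b' then b else C.2), ?_, ?_, fun a => ?_⟩
  · intro x hx
    obtain ⟨y, hy, rfl⟩ := List.mem_map.1 hx
    exact h1 y hy
  · rw [List.map_map]
    exact h2
  · have e : (x * y, b) :: L.map (fun C => (C.1, if C.2 = b' then b else C.2)) ++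
        Q.map (fun C => (C.1, if C.2 = b' then b else C.2)) =
        (x * y, b) :: (L ++ Q).map (fun C => (C.1, if C.2 = b' then b else C.2)) := by
      simp
    rw [e, bv_cons]
    by_cases h4 : a = b
    · subst h4
      have k1 := h3 a
      have k2 := h3 b'
      simp only [List.cons_append, bv_cons, if_true, hb, Ne.symm hb, if_false] at k1 k2 ⊢
      exact (CN.join k1 k2).perm ((bv_relabel (L ++ Q) a b' hb).symm.cons _)
    · by_cases h5 : a = b'
      · subst h5
        rw [bv_relabel_self _ _ _ hb]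
        simp only [if_neg (Ne.symm h4)]
        exact PC.nil
      · rw [bv_relabel_other _ _ _ _ h4 h5]
        simp only [if_neg (Ne.symm h4)]
        have := h3 a
        simpa only [List.cons_append, bv_cons, Ne.symm h4, Ne.symm h5, if_false] using this

theorem jl_one {n : ℕ} {b : ℕ} {L : List (Hs × ℕ)} : JL n ((1, b) :: L) ↔ JL n L := by
  constructor
  · rintro ⟨Q, h1, h2, h3⟩
    refine ⟨Q, h1, h2, fun a => ?_⟩
    have := h3 a
    simp only [List.cons_append, bv_cons] at this
    split_ifs at this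
    · exact CN.one_cons.1 this
    · exact this
  · rintro ⟨Q, h1, h2, h3⟩
    refine ⟨Q, h1, h2, fun a => ?_⟩
    have := h3 a
    simp only [List.cons_append, bv_cons]
    split_ifs
    · exact CN.one_cons.2 this
    · exact this

theorem jl_cut {n : ℕ} {b : ℕ} {x y : Hs} {L : List (Hs × ℕ)} (h : JL n ((x * y, b) :: L)) :
    JL n ((x, b) :: (y, b) :: L) := by
  obtain ⟨Q, h1, h2, h3⟩ := h
  refine ⟨Q, h1, h2, fun a => ?_⟩
  have := h3 a
  simp only [List.cons_append, bv_cons] at this ⊢
  split_ifs at this ⊢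
  · exact this.cut
  · exact this

theorem jl_conj {n : ℕ} {b : ℕ} {x y : Hs} {L : List (Hs × ℕ)} (h : JL n ((x * y, b) :: L)) :
    JL n ((y * x, b) :: L) := by
  obtain ⟨Q, h1, h2, h3⟩ := h
  refine ⟨Q, h1, h2, fun a => ?_⟩
  have := h3 a
  simp only [List.cons_append, bv_cons] at this ⊢
  split_ifs at this ⊢
  · have := this.conj_head y
    simpa [mul_assoc] using this
  · exact this

theorem vv_cons (C : List Pass × ℕ) (D : Code) :
    vv κ κ' (C :: D) = (wv κ κ' C.1, C.2) :: vv κ κ' D := rfl

theorem jl_step {n : ℕ} {D D' : Code} (hs : CStep D D') (h : JL n (vv κ κ' D')) :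
    JL n (vv κ κ' D) := by
  cases hs with
  | perm _ _ hp => exact h.perm (hp.symm.map _)
  | rename f _ hfi hfc => rwa [vv_renamed hfc] at h
  | rotate x y b R =>
    rw [vv_cons, wv_append] at h ⊢
    exact jl_conj h
  | reid _ _ hr => rwa [vv_creid hr]
  | reidInv _ _ hr => rwa [← vv_creid hr]
  | death b R hb =>
    rw [vv_cons, wv_nil]
    exact jl_one.2 h
  | birth b R hb =>
    rw [vv_cons, wv_nil] at h
    exact jl_one.1 h
  | split x y b b' R hb =>
    rw [vv_cons, vv_cons] at h
    have := jl_relabel hb h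
    rw [vv_cons, wv_append]
    have e : vv κ κ' (R.map fun C => (C.1, if C.2 = b' then b else C.2)) =
        (vv κ κ' R).map fun C => (C.1, if C.2 = b' then b else C.2) := by
      simp [vv]
    rw [e]
    exact this
  | merge x y b R =>
    rw [vv_cons, wv_append] at h
    rw [vv_cons, vv_cons]
    exact jl_cut h

theorem wv_one {w : List Pass} (h : ∀ p ∈ w, kap p ≠ κ ∧ kap p ≠ κ') : wv κ κ' w = 1 := by
  induction w with
  | nil => rfl
  | cons p w ih =>
    have e : ph κ κ' p = 1 := by
      obtain ⟨h1, h2⟩ := h p (by simp)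
      simp only [ph, ff, if_neg h1, if_neg h2]
      rfl
    rw [wv_cons, e, ih fun q hq => h q (by simp [hq]), one_mul]

theorem jl_movie {Z : ℕ → Prop} (hκ : κ ≠ κ') (h1 : ¬Z κ.1) (h2 : ¬Z κ'.1) {D : Code}
    {T : List (Sym2 (ℕ × Bool))} (h : SurfMovie Z D T) : JL (T.count s(κ, κ')) (vv κ κ' D) := by
  induction h with
  | nil => exact ⟨[], by simp, by simp, fun b => PC.nil⟩
  | step h hs hm ih => exact jl_step hs ih
  | three h A B C E X Y W t m b x y z hT hP hD hD' hm ih =>
    rw [List.count_append]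
    exact jl_three hκ hT hP hD hD' ih
  | handle x y b h hy hm ih =>
    have e : wv κ κ' y = 1 := by
      refine wv_one fun p hp => ⟨?_, ?_⟩
      · rintro rfl
        exact h1 (hy p hp)
      · rintro rfl
        exact h2 (hy p hp)
    rw [vv_cons, vv_cons, e] at ih
    rw [vv_cons, wv_append, e, mul_one]
    exact jl_one.1 (ih.perm (List.Perm.swap _ _ _))

/-! ### the boundary -/

theorem bv_none {F : List Pass → Hs} {D : Code} {b : ℕ} (h : ∀ C ∈ D, C.2 ≠ b) :
    bv (D.map fun C => (F C.1, C.2)) b = [] := by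
  induction D with
  | nil => rfl
  | cons C D ih =>
    rw [List.map_cons, bv_cons, if_neg (h C (by simp)), ih fun C hC => h C (by simp [hC])]

theorem bv_single {F : List Pass → Hs} {D : Code} (hn : (D.map Prod.snd).Nodup)
    {C : List Pass × ℕ} (hC : C ∈ D) : bv (D.map fun C => (F C.1, C.2)) C.2 = [F C.1] := by
  induction D with
  | nil => exact absurd hC (by simp)
  | cons C' D ih =>
    rw [List.map_cons, List.nodup_cons] at hn
    rw [List.map_cons, bv_cons]
    rcases List.mem_cons.1 hC with rfl | hC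
    · rw [if_pos rfl, bv_none fun C' h' h => hn.1 (by rw [← h]; exact List.mem_map_of_mem h')]
    · rw [if_neg (fun h => hn.1 (by
        simp only at h
        rw [h]; exact List.mem_map_of_mem hC)), ih hn.2 hC]

/-- what the invariant says if the components have different labels -/
theorem jl_final {n : ℕ} {D : Code} (hn : (D.map Prod.snd).Nodup) (h : JL n (vv κ κ' D)) :
    (∀ C ∈ D, (C.1.map (ff κ)).sum = 0 ∧ (C.1.map (ff κ')).sum = 0) ∧
      (4 : ℤ) ∣ (D.map fun C => om (ff κ) (ff κ') C.1).sum + 2 * n := by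
  obtain ⟨Q, h1, h2, h3⟩ := h
  have hQ : ∀ b, ∀ x ∈ bv Q b, x.a = 0 ∧ x.b = 0 := by
    intro b x hx
    simp only [bv, List.mem_map, List.mem_filter] at hx
    obtain ⟨y, ⟨hy, -⟩, rfl⟩ := hx
    exact h1 y hy
  have key : ∀ C ∈ D, (wv κ κ' C.1).a = 0 ∧ (wv κ κ' C.1).b = 0 := by
    intro C hC
    have h := pc_ab (h3 C.2)
    rw [bv_append] at h
    have e : bv (vv κ κ' D) C.2 = [wv κ κ' C.1] := bv_single hn hC
    have z1 : ((bv Q C.2).map Hs.a).sum = 0 := by
      refine List.sum_eq_zero fun y hy => ?_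
      obtain ⟨x, hx, rfl⟩ := List.mem_map.1 hy
      exact (hQ _ x hx).1
    have z2 : ((bv Q C.2).map Hs.b).sum = 0 := by
      refine List.sum_eq_zero fun y hy => ?_
      obtain ⟨x, hx, rfl⟩ := List.mem_map.1 hy
      exact (hQ _ x hx).2
    rw [e, List.map_append, List.sum_append, z1, List.map_append, List.sum_append, z2] at h
    simp only [List.map_cons, List.map_nil, List.sum_cons, List.sum_nil, add_zero, one_a,
      one_b] at h
    exact ⟨h.1.symm, h.2.symm⟩
  refine ⟨fun C hC => ?_, ?_⟩
  · have := key C hC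
    rw [wv_eq] at this
    exact this
  · have h4 := sum_labels (vv κ κ' D ++ Q) ((vv κ κ' D ++ Q).map Prod.snd).toFinset
      (fun x hx => List.mem_toFinset.2 (List.mem_map_of_mem hx))
    have h5 : ∀ b, ((bv (vv κ κ' D ++ Q) b).map Hs.c).sum = 0 := by
      intro b
      have := pc_c (h3 b) ?_
      · rw [← this]; rfl
      · intro x hx
        rw [bv_append] at hx
        rcases List.mem_append.1 hx with hx | hx
        · simp only [bv, vv, List.mem_map, List.mem_filter] at hx
          obtain ⟨y, ⟨⟨C, hC, rfl⟩, -⟩, rfl⟩ := hx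
          exact key C hC
        · exact hQ b x hx
    rw [Finset.sum_eq_zero fun b _ => h5 b, List.map_append, List.sum_append] at h4
    have e : ((vv κ κ' D).map fun x => x.1.c).sum =
        (D.map fun C => om (ff κ) (ff κ') C.1).sum := by
      unfold vv
      rw [List.map_map]
      congr 1
      refine List.map_congr_left fun C hC => ?_
      simp only [Function.comp]
      rw [wv_eq]
    rw [e] at h4
    obtain ⟨c, hc⟩ := h2
    exact ⟨-c, by linarith⟩

/-- the words without interleaved pairs are trivial -/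
theorem prod_one {G : Type} [Group G] (σ : Pass → Pass) (ℓ : Pass → G) (n : ℕ) :
    ∀ w : List Pass, w.length ≤ n → w.Nodup →
    (∀ p ∈ w, σ p ∈ w ∧ σ p ≠ p ∧ σ (σ p) = p ∧ ℓ (σ p) = (ℓ p)⁻¹) →
    (∀ p q a b c d e, w = a ++ p :: (b ++ q :: (c ++ σ p :: (d ++ σ q :: e))) → False) →
    (w.map ℓ).prod = 1 := by
  induction n with
  | zero =>
    intro w hw _ _ _
    rw [List.eq_nil_of_length_eq_zero (l := w) (by omega)]
    rfl
  | succ n ih =>
    intro w hw hn hσ hx
    rcases w with _ | ⟨p, w⟩
    · rfl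
    obtain ⟨h1, h2, h3, h4⟩ := hσ p (by simp)
    have h1' : σ p ∈ w := by
      rcases List.mem_cons.1 h1 with h | h
      · exact absurd h h2
      · exact h
    obtain ⟨A, B, rfl⟩ := List.append_of_mem h1'
    rw [List.nodup_cons, List.nodup_append, List.nodup_cons] at hn
    obtain ⟨n1, n2, ⟨n3, n4⟩, n5⟩ := hn
    have hA : ∀ q ∈ A, σ q ∈ A := by
      intro q hq
      obtain ⟨k1, k2, k3, k4⟩ := hσ q (by simp [hq])
      simp only [List.mem_cons, List.mem_append] at k1
      rcases k1 with k1 | k1 | k1 | k1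
      · exfalso
        have : q = σ p := by rw [← k1, k3]
        exact n5 q hq (σ p) (by simp) this
      · exact k1
      · exfalso
        have : q = p := by rw [← k3, k1, h3]
        exact n1 (by rw [← this]; simp [hq])
      · exfalso
        obtain ⟨b, c, rfl⟩ := List.append_of_mem hq
        obtain ⟨d, e, rfl⟩ := List.append_of_mem k1
        exact hx p q [] b c d e (by simp)
    have hB : ∀ q ∈ B, σ q ∈ B := by
      intro q hq
      obtain ⟨k1, k2, k3, k4⟩ := hσ q (by simp [hq])
      simp only [List.mem_cons, List.mem_append] at k1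
      rcases k1 with k1 | k1 | k1 | k1
      · exfalso
        have : q = σ p := by rw [← k1, k3]
        exact n3 (by rw [← this]; exact hq)
      · exfalso
        have := hA _ k1
        rw [k3] at this
        exact n5 q this q (by simp [hq]) rfl
      · exfalso
        have : q = p := by rw [← k3, k1, h3]
        exact n1 (by rw [← this]; simp [hq])
      · exact k1
    have iA := ih A (by simp only [List.length_cons, List.length_append] at hw; omega) n2
      (fun q hq => ⟨hA q hq, (hσ q (by simp [hq])).2⟩)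
      (fun r q a b c d e he => hx r q (p :: a) b c d (e ++ σ p :: B) (by rw [he]; simp))
    have iB := ih B (by simp only [List.length_cons, List.length_append] at hw; omega) n4
      (fun q hq => ⟨hB q hq, (hσ q (by simp [hq])).2⟩)
      (fun r q a b c d e he => hx r q (p :: (A ++ σ p :: a)) b c d e (by rw [he]; simp))
    rw [List.map_cons, List.prod_cons, List.map_append, List.prod_append, List.map_cons,
      List.prod_cons, iA, iB, h4]
    simp

theorem sum_two {w : List Pass} (hn : w.Nodup) {p q : Pass} (hp : p ∈ w) (hq : q ∈ w)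
    (hpq : p ≠ q) {f : Pass → ℤ} (h : ∀ r ∈ w, r ≠ p → r ≠ q → f r = 0) :
    (w.map f).sum = f p + f q := by
  rw [← List.sum_toFinset f hn]
  exact Finset.sum_eq_add_of_mem p q (by simpa using hp) (by simpa using hq) hpq
    (fun c hc h' => h c (by simpa using hc) h'.1 h'.2)

/-- At most two crossings have the same colour, and only one has, if the colour is even. -/
def Few (D : Code) : Prop :=
  (∀ p ∈ passes D, ∀ q ∈ passes D, ∀ r ∈ passes D, colour q.crossing = colour p.crossing →
    colour r.crossing = colour p.crossing →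
    q.crossing = p.crossing ∨ r.crossing = p.crossing ∨ r.crossing = q.crossing) ∧
  ∀ p ∈ passes D, ∀ q ∈ passes D, colour q.crossing = colour p.crossing →
    colour p.crossing % 2 = 0 → q.crossing = p.crossing

theorem kap_eq {p q : Pass} (h : kap q = kap p) : colour q.crossing = colour p.crossing ∧
    (colour p.crossing % 2 ≠ 0 → q.isOver = p.isOver) := by
  simp only [kap, lc, Prod.mk.injEq] at h
  refine ⟨h.1, fun h0 => ?_⟩
  have h2 := h.2
  rw [h.1] at h2
  have : (colour p.crossing % 2 == 0) = false := by simpa using h0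
  rw [this] at h2
  simpa using h2

theorem two_only {D : Code} (hw : WellFormed D) (hF : Few D) {p q r : Pass} (hp : p ∈ passes D)
    (hq : q ∈ passes D) (hr : r ∈ passes D) (h1 : kap q = kap p) (h2 : kap r = kap p)
    (hqp : q ≠ p) (hrp : r ≠ p) : r = q := by
  obtain ⟨a1, a2⟩ := kap_eq h1
  obtain ⟨b1, b2⟩ := kap_eq h2
  by_cases h0 : colour p.crossing % 2 = 0
  · rcases hw.eq_mate hp hq (hF.2 p hp q hq a1 h0) with h | h
    · exact absurd h hqp
    · rcases hw.eq_mate hp hr (hF.2 p hp r hr b1 h0) with h' | h'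
      · exact absurd h' hrp
      · rw [h, h']
  · have k1 : q.crossing ≠ p.crossing := fun h => hqp (hw.eq_of hq hp h (a2 h0))
    have k2 : r.crossing ≠ p.crossing := fun h => hrp (hw.eq_of hr hp h (b2 h0))
    rcases hF.1 p hp q hq r hr a1 b1 with h | h | h
    · exact absurd h k1
    · exact absurd h k2
    · exact hw.eq_of hr hq h (by rw [a2 h0, b2 h0])

theorem exists_end {D : Code} (hw : WellFormed D) (hF : Few D)
    (hs : ∀ C ∈ D, ∀ p ∈ C.1, (C.1.map (ff (kap p))).sum = 0) {C : List Pass × ℕ} (hC : C ∈ D)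
    {p : Pass} (hp : p ∈ C.1) : ∃ q ∈ C.1, q ≠ p ∧ kap q = kap p ∧ sg q = -sg p ∧
      ∀ r ∈ passes D, kap r = kap p → r = p ∨ r = q := by
  have hin : ∀ r ∈ C.1, r ∈ passes D := fun r hr => mem_passes.2 ⟨C, hC, hr⟩
  have hnd : C.1.Nodup := by
    have := WF.nodup hw
    rw [passes, List.flatMap_def] at this
    exact (List.nodup_flatten.1 this).1 C.1 (List.mem_map_of_mem hC)
  have h0 := hs C hC p hp
  have hq : ∃ q ∈ C.1, q ≠ p ∧ kap q = kap p := by
    by_contra hq
    push Not at hq
    obtain ⟨A, B, hAB⟩ := List.append_of_mem hp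
    rw [hAB] at hnd h0 hq
    rw [List.nodup_append, List.nodup_cons] at hnd
    rw [sum_single] at h0
    · have : ff (kap p) p = sg p := if_pos rfl
      rw [this] at h0
      rcases sg_or p with h | h <;> omega
    · intro r hr
      exact if_neg (hq r (by simp [hr]) fun h => hnd.2.2 r hr p (by simp) h)
    · intro r hr
      exact if_neg (hq r (by simp [hr]) fun h => hnd.2.1.1 (by rw [← h]; exact hr))
  obtain ⟨q, hq, h1, h2⟩ := hq
  refine ⟨q, hq, h1, h2, ?_, fun r hr h3 => ?_⟩
  · have e : (C.1.map (ff (kap p))).sum = ff (kap p) p + ff (kap p) q := by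
      refine sum_two hnd hp hq (Ne.symm h1) fun r hr h3 h4 => if_neg fun h5 => h4 ?_
      exact two_only hw hF (hin p hp) (hin q hq) (hin r hr) h2 h5 h1 h3
    rw [h0] at e
    have e1 : ff (kap p) p = sg p := if_pos rfl
    have e2 : ff (kap p) q = sg q := if_pos h2
    rw [e1, e2] at e
    omega
  · by_cases h4 : r = p
    · exact Or.inl h4
    · exact Or.inr (two_only hw hF (hin p hp) (hin q hq) hr h2 h3 h1 h4)

open Classical in
/-- the other crossing with the same colour -/
noncomputable def mm (D : Code) (c : ℕ) : ℕ :=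
  if h : ∃ p ∈ passes D, colour p.crossing = colour c ∧ p.crossing ≠ c then h.choose.crossing
  else c

theorem mm_even {D : Code} (hF : Few D) {p : Pass} (hp : p ∈ passes D)
    (h0 : colour p.crossing % 2 = 0) : mm D p.crossing = p.crossing := by
  unfold mm
  rw [dif_neg]
  rintro ⟨q, hq, h1, h2⟩
  exact h2 (hF.2 p hp q hq h1 h0)

theorem mm_odd {D : Code} (hF : Few D) {p q : Pass} (hp : p ∈ passes D) (hq : q ∈ passes D)
    (h1 : colour q.crossing = colour p.crossing) (h2 : q.crossing ≠ p.crossing) :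
    mm D p.crossing = q.crossing := by
  unfold mm
  have H : ∃ q ∈ passes D, colour q.crossing = colour p.crossing ∧ q.crossing ≠ p.crossing :=
    ⟨q, hq, h1, h2⟩
  rw [dif_pos H]
  obtain ⟨k1, k2, k3⟩ := H.choose_spec
  rcases hF.1 p hp q hq _ k1 h1 k2 with h | h | h
  · exact absurd h h2
  · exact absurd h k3
  · exact h

theorem end_part {D : Code} (hw : WellFormed D) (hF : Few D) {p q : Pass} (hp : p ∈ passes D)
    (hq : q ∈ passes D) (hqp : q ≠ p) (h1 : kap q = kap p) (h2 : sg q = -sg p) :
    q.crossing = mm D p.crossing ∧ mm D q.crossing = p.crossing ∧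
      (q.crossing ≠ p.crossing → q.isPos = !p.isPos) ∧ part (mm D) p = q ∧
      PairedCrossings.lett (mm D) q = (PairedCrossings.lett (mm D) p)⁻¹ := by
  obtain ⟨a1, a2⟩ := kap_eq h1
  by_cases h0 : colour p.crossing % 2 = 0
  · have k1 := hF.2 p hp q hq a1 h0
    have k2 := mm_even hF hp h0
    rcases hw.eq_mate hp hq k1 with h | h
    · exact absurd h hqp
    · subst h
      refine ⟨k2.symm, k2, fun h => absurd k1 h, ?_, ?_⟩
      · unfold part
        rw [if_pos k2]
      · unfold PairedCrossings.lett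
        simp only [mate_crossing, mate_isOver, k2, if_true]
        by_cases ho : p.isOver = true
        · simp [ho]
        · simp [ho]
  · have k1 : q.crossing ≠ p.crossing := fun h => hqp (hw.eq_of hq hp h (a2 h0))
    have k2 := mm_odd hF hp hq a1 k1
    have k3 := mm_odd hF hq hp a1.symm k1.symm
    have k4 : q.isPos = !p.isPos := by
      have h3 := a2 h0
      unfold sg at h2
      rw [h3] at h2
      cases e1 : q.isPos <;> cases e2 : p.isPos <;> cases e3 : p.isOver <;> simp_all
    refine ⟨k2.symm, k3, fun _ => k4, ?_, ?_⟩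
    · unfold part
      rw [if_neg (by rw [k2]; exact k1), k2, ← a2 h0, ← k4]
    · unfold PairedCrossings.lett
      rw [k2, k3, if_neg k1, if_neg (Ne.symm k1), a2 h0]
      by_cases h5 : p.crossing < q.crossing
      · rw [if_pos h5, if_neg (by omega)]
      · rw [if_neg h5, if_pos (by omega)]
        simp

theorem notin {l₁ l₂ : List Pass} {x : Pass} (h : (l₁ ++ x :: l₂).Nodup) : x ∉ l₁ ∧ x ∉ l₂ := by
  have := (List.nodup_cons.1 (List.nodup_middle.1 h)).1
  simpa [not_or] using this

theorem not_cross {D : Code} (hw : WellFormed D) (hF : Few D) (hn : (D.map Prod.snd).Nodup)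
    (hJ : ∀ p ∈ passes D, ∀ q ∈ passes D, kap p ≠ kap q →
      (4 : ℤ) ∣ (D.map fun C => om (ff (kap p)) (ff (kap q)) C.1).sum)
    {C : List Pass × ℕ} (hC : C ∈ D) {p q p' q' : Pass} {a b c d e : List Pass}
    (hw' : C.1 = a ++ p :: (b ++ q :: (c ++ p' :: (d ++ q' :: e))))
    (hp : kap p' = kap p ∧ sg p' = -sg p) (hq : kap q' = kap q ∧ sg q' = -sg q) : False := by
  have hin : ∀ r ∈ C.1, r ∈ passes D := fun r hr => mem_passes.2 ⟨C, hC, hr⟩
  have hnd : C.1.Nodup := by
    have := WF.nodup hw
    rw [passes, List.flatMap_def] at this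
    exact (List.nodup_flatten.1 this).1 C.1 (List.mem_map_of_mem hC)
  have mp : p ∈ C.1 := by rw [hw']; simp
  have mq : q ∈ C.1 := by rw [hw']; simp
  have mp' : p' ∈ C.1 := by rw [hw']; simp
  have mq' : q' ∈ C.1 := by rw [hw']; simp
  have hne : p ≠ q ∧ p ≠ p' ∧ p ≠ q' ∧ q ≠ p' ∧ q ≠ q' ∧ p' ≠ q' := by
    rw [hw'] at hnd
    simp only [List.nodup_append, List.nodup_cons, List.mem_append, List.mem_cons, not_or] at hnd
    tauto
  obtain ⟨n1, n2, n3, n4, n5, n6⟩ := hne
  have only_p : ∀ r ∈ passes D, kap r = kap p → r = p ∨ r = p' := by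
    intro r hr h
    by_cases h1 : r = p
    · exact Or.inl h1
    · exact Or.inr (two_only hw hF (hin p mp) (hin p' mp') hr hp.1 h n2.symm h1)
  have only_q : ∀ r ∈ passes D, kap r = kap q → r = q ∨ r = q' := by
    intro r hr h
    by_cases h1 : r = q
    · exact Or.inl h1
    · exact Or.inr (two_only hw hF (hin q mq) (hin q' mq') hr hq.1 h n5.symm h1)
  have hpq : kap p ≠ kap q := by
    intro h
    rcases only_p q (hin q mq) h.symm with h1 | h1
    · exact n1 h1.symm
    · exact n4 h1
  have h4 := hJ p (hin p mp) q (hin q mq) hpq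
  obtain ⟨D₁, D₂, hD⟩ := List.append_of_mem hC
  have hother : ∀ C' ∈ D, C' ≠ C → om (ff (kap p)) (ff (kap q)) C'.1 = 0 := by
    intro C' hC' hne
    refine Pool.Agent.Y874.TP2.om_zero fun r hr => if_neg fun h => hne ?_
    have hrC : r ∈ C.1 := by
      rcases only_p r (mem_passes.2 ⟨C', hC', hr⟩) h with rfl | rfl
      · exact mp
      · exact mp'
    have hN := WF.nodup hw
    rw [passes, List.flatMap_def, List.nodup_flatten] at hN
    by_contra hne'
    have hpw := hN.2
    rw [List.pairwise_map] at hpw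
    rcases List.append_of_mem hC' with ⟨E₁, E₂, hE⟩
    have hmem : C ∈ E₁ ∨ C ∈ E₂ := by
      rw [hE] at hC
      simp only [List.mem_append, List.mem_cons] at hC
      rcases hC with h | h | h
      · exact Or.inl h
      · exact absurd h.symm hne'
      · exact Or.inr h
    rw [hE] at hpw
    rw [List.pairwise_append, List.pairwise_cons] at hpw
    rcases hmem with h | h
    · exact hpw.2.2 C h C' (by simp) hrC hr
    · exact hpw.2.1.1 C h hr hrC
  have hCn : C ∉ D₁ ∧ C ∉ D₂ := by
    have : D.Nodup := hn.of_map _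
    rw [hD, List.nodup_append, List.nodup_cons] at this
    exact ⟨fun h => this.2.2 C h C (by simp) rfl, this.2.1.1⟩
  have e1 : (D.map fun C => om (ff (kap p)) (ff (kap q)) C.1).sum =
      om (ff (kap p)) (ff (kap q)) C.1 := by
    conv_lhs => rw [hD]
    rw [List.map_append, List.sum_append, List.map_cons, List.sum_cons]
    have z1 : (D₁.map fun C => om (ff (kap p)) (ff (kap q)) C.1).sum = 0 := by
      refine List.sum_eq_zero fun y hy => ?_
      obtain ⟨C', hC', rfl⟩ := List.mem_map.1 hy
      exact hother C' (by rw [hD]; simp [hC']) (fun h => hCn.1 (by rw [← h]; exact hC'))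
    have z2 : (D₂.map fun C => om (ff (kap p)) (ff (kap q)) C.1).sum = 0 := by
      refine List.sum_eq_zero fun y hy => ?_
      obtain ⟨C', hC', rfl⟩ := List.mem_map.1 hy
      exact hother C' (by rw [hD]; simp [hC']) (fun h => hCn.2 (by rw [← h]; exact hC'))
    rw [z1, z2]
    ring
  have fz : ∀ r ∈ C.1, r ≠ p → r ≠ p' → ff (kap p) r = 0 := by
    intro r hr h1 h2
    refine if_neg fun h => ?_
    rcases only_p r (hin r hr) h with h | h
    · exact h1 h
    · exact h2 h
  have gz : ∀ r ∈ C.1, r ≠ q → r ≠ q' → ff (kap q) r = 0 := by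
    intro r hr h1 h2
    refine if_neg fun h => ?_
    rcases only_q r (hin r hr) h with h | h
    · exact h1 h
    · exact h2 h
  have inC : ∀ r, r ∈ a ∨ r ∈ b ∨ r ∈ c ∨ r ∈ d ∨ r ∈ e → r ∈ C.1 := by
    intro r hr
    rw [hw']
    simp only [List.mem_append, List.mem_cons]
    tauto
  have ne : ∀ r, r ∈ a ∨ r ∈ b ∨ r ∈ c ∨ r ∈ d ∨ r ∈ e → r ≠ p ∧ r ≠ q ∧ r ≠ p' ∧ r ≠ q' := by
    intro r hr
    rw [hw'] at hnd
    have m1 := notin hnd
    have m2 := notin (l₁ := a ++ p :: b) (x := q) (l₂ := c ++ p' :: (d ++ q' :: e))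
      (by simpa using hnd)
    have m3 := notin (l₁ := a ++ p :: (b ++ q :: c)) (x := p') (l₂ := d ++ q' :: e)
      (by simpa using hnd)
    have m4 := notin (l₁ := a ++ p :: (b ++ q :: (c ++ p' :: d))) (x := q') (l₂ := e)
      (by simpa using hnd)
    simp only [List.mem_append, List.mem_cons, not_or] at m1 m2 m3 m4
    refine ⟨?_, ?_, ?_, ?_⟩ <;> rintro rfl <;> tauto
  have e2 : om (ff (kap p)) (ff (kap q)) C.1 = sg p * (2 * sg q) := by
    have hC' : C.1 = a ++ p :: ((b ++ q :: c) ++ p' :: (d ++ q' :: e)) := by rw [hw']; simp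
    have f0 : ∀ r, r ∈ a ∨ r ∈ b ∨ r ∈ c ∨ r ∈ d ∨ r ∈ e → ff (kap p) r = 0 := fun r hr =>
      fz r (inC r hr) (ne r hr).1 (ne r hr).2.2.1
    have g0 : ∀ r, r ∈ a ∨ r ∈ b ∨ r ∈ c ∨ r ∈ d ∨ r ∈ e → ff (kap q) r = 0 := fun r hr =>
      gz r (inC r hr) (ne r hr).2.1 (ne r hr).2.2.2
    rw [hC', om_key]
    · have g1 : ((b ++ q :: c).map (ff (kap q))).sum = ff (kap q) q :=
        sum_single _ _ _ _ (fun r hr => g0 r (by tauto)) (fun r hr => g0 r (by tauto))
      have g2 : ff (kap q) q = sg q := if_pos rfl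
      have g3 : ff (kap q) p = 0 := gz p mp n1 n3
      have g4 : ff (kap q) p' = 0 := gz p' mp' n4.symm n6
      have g5 : ff (kap p) p = sg p := if_pos rfl
      rw [g1, g2, g3, g4, g5]
      ring
    · exact fun r hr => f0 r (by tauto)
    · intro r hr
      rw [List.mem_append, List.mem_cons] at hr
      rcases hr with hr | rfl | hr
      · exact f0 r (by tauto)
      · exact fz r mq n1.symm n4
      · exact f0 r (by tauto)
    · intro r hr
      rw [List.mem_append, List.mem_cons] at hr
      rcases hr with hr | rfl | hr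
      · exact f0 r (by tauto)
      · exact fz r mq' n3.symm n6.symm
      · exact f0 r (by tauto)
    · have g5 : ff (kap p) p = sg p := if_pos rfl
      have g6 : ff (kap p) p' = sg p' := if_pos hp.1
      rw [g5, g6, hp.2]
  rw [e1, e2] at h4
  obtain ⟨k, hk⟩ := h4
  rcases sg_or p with h | h <;> rcases sg_or q with h' | h' <;> rw [h, h'] at hk <;> omega

/-- The crossings of the diagram with the same colour form a pairing satisfying the criterion of
`PairedCrossings`. -/
theorem cancels {D : Code} (hw : WellFormed D) (hF : Few D) (hn : (D.map Prod.snd).Nodup)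
    (hs : ∀ C ∈ D, ∀ p ∈ C.1, (C.1.map (ff (kap p))).sum = 0)
    (hJ : ∀ p ∈ passes D, ∀ q ∈ passes D, kap p ≠ kap q →
      (4 : ℤ) ∣ (D.map fun C => om (ff (kap p)) (ff (kap q)) C.1).sum) :
    PairedCrossings.Cancels D (mm D) := by
  have hin : ∀ C ∈ D, ∀ r ∈ C.1, r ∈ passes D := fun C hC r hr => mem_passes.2 ⟨C, hC, hr⟩
  refine ⟨fun p hp => ?_, fun C hC => ?_⟩
  · obtain ⟨C, hC, hpC⟩ := mem_passes.1 hp
    obtain ⟨q, h1, h2, h3, h4, h5⟩ := exists_end hw hF hs hC hpC
    obtain ⟨k1, k2, k3, k4, k5⟩ := end_part hw hF hp (hin C hC q h1) h2 h3 h4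
    exact ⟨q, hin C hC q h1, k1, k2, k3⟩
  · have hnd : C.1.Nodup := by
      have := WF.nodup hw
      rw [passes, List.flatMap_def] at this
      exact (List.nodup_flatten.1 this).1 C.1 (List.mem_map_of_mem hC)
    have key : ∀ p ∈ C.1, part (mm D) p ∈ C.1 ∧ part (mm D) p ≠ p ∧
        kap (part (mm D) p) = kap p ∧ sg (part (mm D) p) = -sg p ∧
        part (mm D) (part (mm D) p) = p ∧ PairedCrossings.lett (mm D) (part (mm D) p) =
          (PairedCrossings.lett (mm D) p)⁻¹ := by
      intro p hp
      obtain ⟨q, h1, h2, h3, h4, h5⟩ := exists_end hw hF hs hC hp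
      obtain ⟨k1, k2, k3, k4, k5⟩ := end_part hw hF (hin C hC p hp) (hin C hC q h1) h2 h3 h4
      obtain ⟨-, -, -, k6, -⟩ := end_part hw hF (hin C hC q h1) (hin C hC p hp) h2.symm h3.symm
        (by rw [h4]; ring)
      rw [k4]
      exact ⟨h1, h2, h3, h4, k6, k5⟩
    refine prod_one (part (mm D)) _ C.1.length C.1 le_rfl hnd
      (fun p hp => ⟨(key p hp).1, (key p hp).2.1, (key p hp).2.2.2.2.1, (key p hp).2.2.2.2.2⟩) ?_
    intro p q a b c d e he
    have mp : p ∈ C.1 := by rw [he]; simp
    have mq : q ∈ C.1 := by rw [he]; simp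
    exact not_cross hw hF hn hJ hC he ⟨(key p mp).2.2.1, (key p mp).2.2.2.1⟩
      ⟨(key q mq).2.2.1, (key q mq).2.2.2.1⟩

/-- Let `L` be (the Gauss code of) a classical link, and let `D` be a classical link obtained from `L`
by a movie without births. Suppose that `D` bounds disjoint surfaces in `M × I`, `M` a 3-manifold
(given by a movie of virtual link diagrams with births), in such a way that handles of the surfaces
can be cut off along curves which do not meet the double curves (of the projection to `M`) which meet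
`D` (these have colours outside `Z`), and that any two different curves in the preimage of the double
curves meeting `D` cross an even number of times. Then `L` bounds disjoint ribbon discs in the
4-ball: discs given by a movie of classical links without births. -/
theorem result (L : List (List Pass)) (Z : ℕ → Prop) (D : Code) (T : List (Sym2 (ℕ × Bool)))
    (hL : Classical L.zipIdx) (h₁ : Movie true false L.zipIdx D) (h₂ : SurfMovie Z D T)
    (hZ : ∀ p ∈ passes D, ¬Z (colour p.crossing)) (hF : Few D)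
    (hT : ∀ p ∈ passes D, ∀ q ∈ passes D, kap p ≠ kap q → Even (T.count s(kap p, kap q))) :
    Movie true false L.zipIdx [] := by
  have hn : (D.map Prod.snd).Nodup := by
    refine nodup_movie h₁ ?_
    rw [List.zipIdx_map_snd]
    exact List.nodup_range'
  have hD := classical_of_movie h₁ hL
  have hs : ∀ C ∈ D, ∀ p ∈ C.1, (C.1.map (ff (kap p))).sum = 0 := by
    intro C hC p hp
    have hz := hZ p (mem_passes.2 ⟨C, hC, hp⟩)
    have := jl_final (κ := kap p) (κ' := ((kap p).1, !(kap p).2)) hn
      (jl_movie (by intro h; simpa using congrArg Prod.snd h) hz hz h₂)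
    exact (this.1 C hC).1
  have hJ : ∀ p ∈ passes D, ∀ q ∈ passes D, kap p ≠ kap q →
      (4 : ℤ) ∣ (D.map fun C => om (ff (kap p)) (ff (kap q)) C.1).sum := by
    intro p hp q hq hpq
    have := (jl_final hn (jl_movie hpq (hZ p hp) (hZ q hq) h₂)).2
    obtain ⟨k, hk⟩ := hT p hp q hq hpq
    obtain ⟨c, hc⟩ := this
    exact ⟨c - k, by rw [hk] at hc; push_cast at hc; linarith⟩
  have h4 : Movie false false D [] ↔ ∃ m, PairedCrossings.Cancels D m :=
    (PairedCrossings.result D hD hn).out 2 3
  have h3 := h4.2 ⟨mm D, cancels hD.1 hF hn hs hJ⟩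
  exact h₁.trans (movie_mono h3)

end Pool.Agent.Results.MP_752436_gt.EvenCrossings
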