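import Pool.Agent.Y468.SR.Labels
import Pool.Agent.Y468.SR.Rel

/-!
Slice discs whose projection has no triple points: a criterion in terms of the Gauss code alone.
-/

set_option autoImplicit false

namespace Pool.Agent.Results.MP_752436_gt.PairedCrossings

open Pool.Agent.Y468.SR

/-- A movie of virtual link diagrams (well-formed Gauss codes, no planarity required) without moves of
type III, in which births of components are allowed. -/
def VirtualMovie : Code → Code → Prop :=
  Relation.ReflTransGen fun D D' => WellFormed D ∧ WellFormed D' ∧ Step false true D D'

/-- The letter of a passage: if its crossing `c` is not paired with another one (`m c = c`), then the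
letter of the over-passage is a generator and that of the under-passage its inverse. If `c` is paired
with `m c ≠ c`, then the over-passages through `c` and `m c` get mutually inverse letters, and the
under-passages through `c` and `m c` get mutually inverse letters. -/
def lett (m : ℕ → ℕ) (p : Pass) : FreeGroup (ℕ × Bool) :=
  if m p.crossing = p.crossing then
    (if p.isOver then FreeGroup.of (p.crossing, true) else (FreeGroup.of (p.crossing, true))⁻¹)
  else if p.crossing < m p.crossing then FreeGroup.of (p.crossing, p.isOver)
  else (FreeGroup.of (m p.crossing, p.isOver))⁻¹

/-- The crossings of the diagram are paired by `m` (some may remain single, `m c = c`), paired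
crossings have opposite signs, and the word read along each component is trivial in the free group. -/
def Cancels (D : Code) (m : ℕ → ℕ) : Prop :=
  (∀ p ∈ passes D, ∃ q ∈ passes D, q.crossing = m p.crossing ∧ m q.crossing = p.crossing ∧
    (q.crossing ≠ p.crossing → q.isPos = !p.isPos)) ∧
  ∀ C ∈ D, (C.1.map (lett m)).prod = 1

theorem lett_eq (m : ℕ → ℕ) (p : Pass) : lett m p = FreeGroup.mk [letter m p] := by
  obtain ⟨c, τ, s⟩ := p
  unfold lett letter
  simp only
  split_ifs with h1 h2 h3
  · subst h2; rfl
  · have : τ = false := by simpa using h2
    subst this; rfl
  · rfl
  · rfl

theorem prod_eq (m : ℕ → ℕ) (w : List Pass) : (w.map (lett m)).prod = wval (fo m) (fu m) w := by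
  induction w with
  | nil => rfl
  | cons p w ih => rw [List.map_cons, List.prod_cons, ih, wval_cons, lett_eq, val_letter]

theorem null_of_cancels {D : Code} {m : ℕ → ℕ} (h : Cancels D m) : Null D m := by
  intro G _ o u hv C hC
  obtain ⟨φ, hφ⟩ := univ hv
  rw [← hφ C.1 fun r hr => mem_passes.2 ⟨C, hC, hr⟩, ← prod_eq, h.2 C hC, map_one]

theorem inv_of_virtual {D D' : Code} (h : VirtualMovie D D') (hi : Inv D') : Inv D := by
  induction h using Relation.ReflTransGen.head_induction_on with
  | refl => exact hi
  | head h _ ih => exact step_inv h.1 h.2.1 h.2.2 ih

theorem virtual_of_movie {D D' : Code} (h : Movie false true D D') : VirtualMovie D D' := by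
  induction h with
  | refl => exact Relation.ReflTransGen.refl
  | tail _ h ih => exact Relation.ReflTransGen.tail ih ⟨h.1.1, h.2.1.1, h.2.2⟩

theorem step_births {D D' : Code} (h : Step false false D D') : Step false true D D' := by
  cases h with
  | perm _ _ h => exact Step.perm _ _ h
  | rename f _ hf => exact Step.rename f _ hf
  | rotate x y b R => exact Step.rotate x y b R
  | reid _ _ h => exact Step.reid _ _ h
  | reidInv _ _ h => exact Step.reidInv _ _ h
  | death b R hb => exact Step.death b _ hb
  | birth h b R hb => exact absurd h (by simp)
  | split x y b b' R hb => exact Step.split x y b b' R hb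
  | merge x y b R => exact Step.merge x y b R

theorem births_of_movie {D D' : Code} (h : Movie false false D D') : Movie false true D D' := by
  induction h with
  | refl => exact Relation.ReflTransGen.refl
  | tail _ h ih => exact Relation.ReflTransGen.tail ih ⟨h.1, h.2.1, step_births h.2.2⟩

/-- For a diagram `D` of a classical link with pairwise different labels (each component bounding a
disc of its own) the following are equivalent: `D` bounds disjoint discs by a movie of virtual link
diagrams with births and without moves of type III (discs in `M × I`, for some 3-manifold `M`, whose
projection to `M` has no triple points); the same with diagrams of classical links (discs in the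
4-ball); `D` bounds disjoint ribbon discs by a movie of classical links without births and without
moves of type III; some crossings of `D` can be paired, with opposite signs in each pair, such that
the word of each component is trivial in the free group. -/
theorem result (D : Code) (hD : Classical D) (hn : (D.map Prod.snd).Nodup) :
    List.TFAE [VirtualMovie D [], Movie false true D [], Movie false false D [],
      ∃ m : ℕ → ℕ, Cancels D m] := by
  tfae_have 1 → 4 := by
    intro h
    obtain ⟨m, hm, hN⟩ := null_of_inv hn (inv_of_virtual h inv_nil)
    exact ⟨m, hm, fun C hC => by
      rw [prod_eq]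
      exact hN _ _ _ (valid_letter hm) C hC⟩
  tfae_have 4 → 3 := by
    rintro ⟨m, h⟩
    exact ribbon_of_inv _ D le_rfl hD hn (inv_of_null h.1 (null_of_cancels h))
  tfae_have 3 → 2 := births_of_movie
  tfae_have 2 → 1 := virtual_of_movie
  tfae_finish

end Pool.Agent.Results.MP_752436_gt.PairedCrossings
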